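import Pool.Agent.H68.I2.Df
import Pool.Agent.H78.ZC.Wz

/-!
# MP_78d38b I2, row Cv: two descriptions of the layers (about 50 lines)

`H78Z.Tw {p} k L` (`H78/ZC/Wa.lean`): `IsTotallyReal L ∧ ∃ A, SN {p} A ∧ Nonempty (L →ₐ[k] CyclotomicField A k)`,
`SN {p} A`: `A ≠ 0` and all prime factors of `A` are in `{p}`.
`H73IS.IsLay p k L`: `IsTotallyReal L ∧ ∃ n, Nonempty (L →ₐ[k] CyclotomicField (p ^ (n + 1)) k)`.

PROOF. `tw_of_lay`: `A = p ^ (n + 1)` (`Nat.Prime.dvd_of_dvd_pow`, `Nat.prime_dvd_prime_iff_eq`).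
`lay_of_tw`: `A = p ^ m` (`Nat.eq_prime_pow_of_unique_prime_dvd`); for `m = n + 1` clear; for `m = 0`
one has to map `CyclotomicField 1 k` to `CyclotomicField (p ^ 1) k` over `k`: `CyclotomicField (p ^ 1) k` contains a
primitive first root of unity `1`, and `CyclotomicField 1 k` has degree one over `k`
(`IsCyclotomicExtension.finrank`/`algebraMap` is surjective since it is generated by the first roots of
unity), or use the splitting field property (`Polynomial.SplittingField.lift`: `cyclotomic 1 k = X - 1`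
splits).
-/

set_option autoImplicit false
open scoped Classical

open WeierstrassCurve IsDedekindDomain NumberField WithZero Pool.Agent.H10 H73IS

namespace H68I2

variable {p : ℕ} [Fact p.Prime] {k L : Type} [Field k] [NumberField k] [Field L] [NumberField L]
  [Algebra k L]

omit [NumberField k] [Fact p.Prime] in
private theorem one_alg [CharZero k] (n : ℕ) (hn : n = 1) (F : Type) [Field F] [Algebra k F]
    (j : L →ₐ[k] CyclotomicField n k) : Nonempty (L →ₐ[k] F) := by
  subst hn
  have : IsCyclotomicExtension {1} k (CyclotomicField 1 k) := inferInstance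
  have hb : (⊥ : Subalgebra k (CyclotomicField 1 k)) = ⊤ :=
    IsCyclotomicExtension.singleton_one _ _
  have hsurj : Function.Surjective (Algebra.ofId k (CyclotomicField 1 k)) := by
    intro x
    have hx : x ∈ (⊥ : Subalgebra k (CyclotomicField 1 k)) := by
      rw [hb]; exact Algebra.mem_top
    obtain ⟨y, hy⟩ := Algebra.mem_bot.1 hx
    exact ⟨y, hy⟩
  let E : k ≃ₐ[k] CyclotomicField 1 k :=
    AlgEquiv.ofBijective (Algebra.ofId k (CyclotomicField 1 k)) ⟨RingHom.injective _, hsurj⟩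
  exact ⟨(Algebra.ofId k F).comp (E.symm.toAlgHom.comp j)⟩

theorem tw_of_lay (h : IsLay p k L) : H78Z.Tw {p} k L := by
  obtain ⟨hr, n, hj⟩ := h
  have hp : p.Prime := Fact.out
  refine ⟨hr, p ^ (n + 1), ⟨pow_ne_zero _ hp.ne_zero, fun q hq hd => ?_⟩, hj⟩
  rw [Finset.mem_singleton]
  exact (Nat.prime_dvd_prime_iff_eq hq hp).1 (hq.dvd_of_dvd_pow hd)

theorem lay_of_tw (h : H78Z.Tw {p} k L) : IsLay p k L := by
  obtain ⟨hr, A, hA, ⟨j⟩⟩ := h
  have hA' : A = p ^ A.primeFactorsList.length :=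
    Nat.eq_prime_pow_of_unique_prime_dvd hA.1
      (fun {d} hd hdA => Finset.mem_singleton.1 (hA.2 d hd hdA))
  refine ⟨hr, ?_⟩
  generalize A.primeFactorsList.length = m at hA'
  subst hA'
  rcases m with _ | n
  · exact ⟨0, one_alg (p ^ 0) (pow_zero p) _ j⟩
  · exact ⟨n, ⟨j⟩⟩

end H68I2
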