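import Mathlib

/-!
# MP_78d38b I2, row D0: subfields of cyclic extensions (about 70 lines, only Mathlib)

PROOF of sub_le. A cyclic group of order `n`; `H₁`, `H₂` subgroups with `Nat.card H₁ ∣ Nat.card H₂`.  Every
`x ∈ H₁` satisfies `x ^ Nat.card H₂ = 1`; the set of all `x` in the group with `x ^ Nat.card H₂ = 1` has at most
`Nat.card H₂` elements (`IsCyclic.card_pow_eq_one_le`) and contains `H₂`, so it is `H₂`.
PROOF of le_of_dvd. `card (fixingSubgroup I) = [F : I]` (`IsGalois.card_fixingSubgroup_eq_finrank`),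
`[I : ℚ] [F : I] = [F : ℚ]` (`Module.finrank_mul_finrank`), so `[I : ℚ] ∣ [J : ℚ]` gives
`card (fix J) ∣ card (fix I)`, `fix J ≤ fix I` by sub_le, and `I = fixedField (fix I) ≤ fixedField (fix J) = J`
(`IsGalois.fixedField_fixingSubgroup`, `IsGalois.intermediateFieldEquivSubgroup`).
PROOF of exists_sub. `d ∣ [I : ℚ] ∣ [F : ℚ] = card`; a cyclic group has a subgroup of order `card / d`
(`zpowers (g ^ d)`, `orderOf_pow_of_dvd`, `IsCyclic.exists_generator`); its fixed field has degree `d` and is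
contained in `I` by le_of_dvd.
-/

set_option autoImplicit false
open scoped Classical

namespace H68I2

theorem sub_le {G : Type*} [Group G] [Finite G] [IsCyclic G] {H₁ H₂ : Subgroup G}
    (h : Nat.card H₁ ∣ Nat.card H₂) : H₁ ≤ H₂ := by
  let _ : Fintype G := Fintype.ofFinite G
  have hpos : 0 < Nat.card H₂ := Nat.card_pos
  intro x hx
  have h1 : x ^ Nat.card H₂ = 1 := by
    obtain ⟨k, hk⟩ := h
    have h2 : (⟨x, hx⟩ : H₁) ^ Nat.card H₁ = 1 := pow_card_eq_one'
    have h3 : x ^ Nat.card H₁ = 1 := by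
      have h4 : (((⟨x, hx⟩ : H₁) ^ Nat.card H₁ : H₁) : G) = ((1 : H₁) : G) := congrArg _ h2
      rwa [Subgroup.coe_pow, Subgroup.coe_one] at h4
    rw [hk, pow_mul, h3, one_pow]
  have h5 := IsCyclic.card_pow_eq_one_le (α := G) hpos
  have h6 : (Finset.univ.filter (fun a : G => a ∈ H₂)) ⊆
      Finset.univ.filter (fun a : G => a ^ Nat.card H₂ = 1) := by
    intro a ha
    rw [Finset.mem_filter] at ha ⊢
    refine ⟨Finset.mem_univ _, ?_⟩
    have h2 : (⟨a, ha.2⟩ : H₂) ^ Nat.card H₂ = 1 := pow_card_eq_one'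
    have h4 : (((⟨a, ha.2⟩ : H₂) ^ Nat.card H₂ : H₂) : G) = ((1 : H₂) : G) := congrArg _ h2
    rwa [Subgroup.coe_pow, Subgroup.coe_one] at h4
  have h7 : (Finset.univ.filter (fun a : G => a ∈ H₂)).card = Nat.card H₂ := by
    rw [Nat.card_eq_fintype_card, Fintype.card_subtype]
  have h8 := Finset.eq_of_subset_of_card_le h6 (by rw [h7]; exact h5)
  have h9 : x ∈ Finset.univ.filter (fun a : G => a ^ Nat.card H₂ = 1) :=
    Finset.mem_filter.2 ⟨Finset.mem_univ _, h1⟩
  rw [← h8, Finset.mem_filter] at h9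
  exact h9.2

theorem le_of_dvd {F : Type} [Field F] [NumberField F] [IsGalois ℚ F]
    (hc : IsCyclic (F ≃ₐ[ℚ] F)) {I J : IntermediateField ℚ F}
    (h : Module.finrank ℚ I ∣ Module.finrank ℚ J) : I ≤ J := by
  have := hc
  have h1 := Module.finrank_mul_finrank ℚ I F
  have h2 := Module.finrank_mul_finrank ℚ J F
  have h3 : Module.finrank J F ∣ Module.finrank I F := by
    obtain ⟨k, hk⟩ := h
    refine ⟨k, ?_⟩
    have hI : 0 < Module.finrank ℚ I := Module.finrank_pos
    rw [hk, ← h1, mul_assoc] at h2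
    have h4 := Nat.eq_of_mul_eq_mul_left hI h2
    rw [← h4, mul_comm]
  have h5 : J.fixingSubgroup ≤ I.fixingSubgroup := by
    refine sub_le ?_
    rw [IsGalois.card_fixingSubgroup_eq_finrank, IsGalois.card_fixingSubgroup_eq_finrank]
    exact h3
  have h6 := (IntermediateField.le_iff_le J.fixingSubgroup I).2 h5
  rwa [IsGalois.fixedField_fixingSubgroup] at h6

theorem exists_sub {F : Type} [Field F] [NumberField F] [IsGalois ℚ F]
    (hc : IsCyclic (F ≃ₐ[ℚ] F)) {I : IntermediateField ℚ F} {d : ℕ}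
    (hd : d ∣ Module.finrank ℚ I) :
    ∃ I₀ : IntermediateField ℚ F, I₀ ≤ I ∧ Module.finrank ℚ I₀ = d := by
  have := hc
  obtain ⟨g, hg⟩ := IsCyclic.exists_generator (α := F ≃ₐ[ℚ] F)
  have hcard : Nat.card (F ≃ₐ[ℚ] F) = Module.finrank ℚ F := IsGalois.card_aut_eq_finrank ℚ F
  have ho : orderOf g = Module.finrank ℚ F := by
    rw [← hcard]
    exact orderOf_eq_card_of_forall_mem_zpowers hg
  have hn : 0 < Module.finrank ℚ F := Module.finrank_pos
  have hI := Module.finrank_mul_finrank ℚ I F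
  have hdF : d ∣ Module.finrank ℚ F := by
    rw [← hI]
    exact hd.mul_right _
  have hd0 : d ≠ 0 := by
    rintro rfl
    rw [zero_dvd_iff] at hdF
    omega
  have hod : orderOf (g ^ d) = Module.finrank ℚ F / d := by
    rw [← ho]
    exact orderOf_pow_of_dvd hd0 (by rw [ho]; exact hdF)
  have hcH : Nat.card (Subgroup.zpowers (g ^ d)) = Module.finrank ℚ F / d := by
    rw [Nat.card_zpowers, hod]
  have hf : Module.finrank (IntermediateField.fixedField (Subgroup.zpowers (g ^ d))) F =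
      Module.finrank ℚ F / d := by
    rw [IntermediateField.finrank_fixedField_eq_card, hcH]
  have h1 := Module.finrank_mul_finrank ℚ
    (IntermediateField.fixedField (Subgroup.zpowers (g ^ d))) F
  have h2 : Module.finrank ℚ (IntermediateField.fixedField (Subgroup.zpowers (g ^ d))) = d := by
    rw [hf] at h1
    obtain ⟨k, hk⟩ := hdF
    have hk0 : 0 < k := by
      rcases Nat.eq_zero_or_pos k with h0 | h0
      · rw [h0, mul_zero] at hk
        omega
      · exact h0
    rw [hk, Nat.mul_div_cancel_left _ (Nat.pos_of_ne_zero hd0)] at h1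
    exact Nat.eq_of_mul_eq_mul_right hk0 h1
  refine ⟨_, le_of_dvd hc ?_, h2⟩
  rw [h2]
  exact hd

end H68I2
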