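import Pool.Agent.H68.I2.D0
import Pool.Agent.H68.I2.Cv

/-!
# MP_78d38b I2, row D1: layers of large degree are deep (about 180 lines)

`H78Z.Deep m K L`: every `x : L` with `minpoly ℚ x = minpoly ℚ y` for some `y : CyclotomicField m ℚ` comes from `K`.

PROOF. `N' := N + padicValNat p [k : ℚ]`.  Let `L →ₐ[k] CyclotomicField A k`, `A` a power of `p` (`hL`).
Enlarge: `A = p ^ a`, `a ≥ N`, `a ≥ 1` (see `exists_level` / `Kf.lean` in `H78/ZC` for
`CyclotomicField A k →ₐ[k] CyclotomicField (p ^ a) k`); call the map `j : L →ₐ[k] C`.  Let `ζ ∈ C` be a primitive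
`p ^ a`-th root of unity, `Z := IntermediateField.adjoin ℚ {ζ}` (a cyclotomic extension of `ℚ`, normal), and
`L' : IntermediateField ℚ L` the field of all `x` with `j x ∈ Z`.  As in `Kf_gen`, `Kf_real` (`H78/ZC/Kf.lean`):
`adjoin k L' = ⊤`, and `L'` embeds in `CyclotomicField (p ^ a) ℚ`, so it is Galois over `ℚ` with cyclic group
(quotient of `(ZMod (p ^ a))ˣ`; `H68/TL/Bfa.lean` line 90).  `decomposeS (K := K) (algebraMap L' L) ..`
(`H78/ZC/Dq.lean`) gives `K'`, `Algebra K' L'`, `finrank K' L' = finrank K L = p ^ j`, and: `x : L'` whose image is in `K`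
comes from `K'`; and by `C.comm` the elements of `K'` are in `K`.
(1) `x : L` as in `Deep (p ^ N)`: `x ∈ L'`: `j x` is a root of `minpoly ℚ y`, `y : CyclotomicField (p ^ N) ℚ`; since
`p ^ N ∣ p ^ a`, `CyclotomicField (p ^ N) ℚ` maps to `Z`, so the minimal polynomial has a root in `Z`, all its roots in
`C` are in `Z` (`Z` is normal over `ℚ`).
(2) degrees: `[K : ℚ] ∣ [K' : ℚ] * [k : ℚ]`: `[L : k] ∣ [L' : ℚ]` since `L = k L'` and `L' / ℚ` is Galois
(this is done in `decompose_l`, `H68/TM/Decl.lean`), and divide by `p ^ j`.  Hence `p ^ N ∣ [K' : ℚ]`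
(`padicValNat`, as in `decompose_l`).
(3) Let `I := ℚ⟮x⟯ ≤ L'` and `J :=` the image of `K'` in `L'` (intermediate fields of `L' / ℚ`).  `[I : ℚ]` is the
degree of the minimal polynomial of `y`, a divisor of `[CyclotomicField (p ^ N) ℚ : ℚ] = φ(p ^ N)`, so
`p ^ N ∤ [I : ℚ]` (for `N ≥ 1`; for `N = 0` it is `1`).  `[I : ℚ] ∣ [L' : ℚ] = [J : ℚ] * p ^ j` and `p ^ N ∣ [J : ℚ]`
give `[I : ℚ] ∣ [J : ℚ]` (write `[I : ℚ] = p ^ s * t`, `p ∤ t`, `s ≤ N`; `t ∣ [J : ℚ]` by coprimality, `p ^ s ∣ [J : ℚ]`,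
and `p ^ s`, `t` coprime).  `le_of_dvd`: `I ≤ J`, so `x` comes from `K'`, hence from `K`.
-/

set_option autoImplicit false
open scoped Classical

open IsDedekindDomain NumberField

namespace H68I2

private theorem I2D1_le {k F : Type} [Field k] [Field F] [Algebra k F] [FiniteDimensional k F]
    [IsGalois k F] (hc : IsCyclic (F ≃ₐ[k] F)) {I J : IntermediateField k F}
    (h : Module.finrank k I ∣ Module.finrank k J) : I ≤ J := by
  have h1 := Module.finrank_mul_finrank k I F
  have h2 := Module.finrank_mul_finrank k J F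
  have hI : 0 < Module.finrank k I := Module.finrank_pos
  have h3 : Nat.card J.fixingSubgroup ∣ Nat.card I.fixingSubgroup := by
    rw [IsGalois.card_fixingSubgroup_eq_finrank, IsGalois.card_fixingSubgroup_eq_finrank]
    obtain ⟨e, he⟩ := h
    refine ⟨e, Nat.eq_of_mul_eq_mul_left hI ?_⟩
    rw [h1, ← h2, he]
    ring
  have h4 : J.fixingSubgroup ≤ I.fixingSubgroup := sub_le h3
  intro x hx
  rw [← IsGalois.fixedField_fixingSubgroup J, IntermediateField.mem_fixedField_iff]
  intro f hf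
  exact (IntermediateField.mem_fixingSubgroup_iff _ _).1 (h4 hf) x hx

private theorem I2D1_inj {k C : Type} [Field k] [Field C] [NumberField k] [Algebra k C]
    {m : ℕ} [NeZero m] [IsCyclotomicExtension {m} k C] :
    ∃ f : (C ≃ₐ[k] C) →* (ZMod m)ˣ, Function.Injective f :=
  ⟨(IsCyclotomicExtension.zeta_spec m k C).autToPow k,
    (IsCyclotomicExtension.zeta_spec m k C).autToPow_injective k⟩

private theorem I2D1_cyc {p : ℕ} [Fact p.Prime] (hp2 : p ≠ 2) {k L : Type} [Field k]
    [NumberField k] [Field L] [NumberField L] [Algebra k L] (m : ℕ)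
    (j : L →ₐ[k] CyclotomicField (p ^ m) k) (hg : IsGalois k L) : IsCyclic (L ≃ₐ[k] L) := by
  have hp : p.Prime := Fact.out
  have hne : NeZero (p ^ m) := ⟨pow_ne_zero _ hp.ne_zero⟩
  have hne2 : NeZero (((p ^ m : ℕ)) : k) := ⟨Nat.cast_ne_zero.2 hne.ne⟩
  have hcyc : IsCyclotomicExtension {p ^ m} k (CyclotomicField (p ^ m) k) :=
    CyclotomicField.isCyclotomicExtension (p ^ m) k
  have hgC : IsGalois k (CyclotomicField (p ^ m) k) :=
    IsCyclotomicExtension.isGalois {p ^ m} k (CyclotomicField (p ^ m) k)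
  have h1 : IsCyclic (ZMod (p ^ m))ˣ := ZMod.isCyclic_units_of_prime_pow p hp hp2 m
  obtain ⟨f, hf⟩ := I2D1_inj (k := k) (C := CyclotomicField (p ^ m) k) (m := p ^ m)
  have h2 : IsCyclic (CyclotomicField (p ^ m) k ≃ₐ[k] CyclotomicField (p ^ m) k) :=
    isCyclic_of_injective f hf
  let _ : Algebra L (CyclotomicField (p ^ m) k) := j.toAlgebra
  have ht : IsScalarTower k L (CyclotomicField (p ^ m) k) :=
    IsScalarTower.of_algebraMap_eq fun x => (j.commutes x).symm
  have hn : Normal k L := hg.to_normal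
  have hnC : Normal k (CyclotomicField (p ^ m) k) := hgC.to_normal
  exact isCyclic_of_surjective (AlgEquiv.restrictNormalHom (F := k)
    (K₁ := CyclotomicField (p ^ m) k) L) (AlgEquiv.restrictNormalHom_surjective _)

private theorem I2D1_deg {k : Type} [Field k] [NumberField k] (m : ℕ) (hm : m ≠ 0)
    (y : CyclotomicField m k) : (minpoly k y).natDegree ∣ Nat.totient m := by
  have hne : NeZero m := ⟨hm⟩
  have hne2 : NeZero ((m : ℕ) : k) := ⟨Nat.cast_ne_zero.2 hm⟩
  have hcyc : IsCyclotomicExtension {m} k (CyclotomicField m k) :=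
    CyclotomicField.isCyclotomicExtension m k
  have hgC : IsGalois k (CyclotomicField m k) :=
    IsCyclotomicExtension.isGalois {m} k (CyclotomicField m k)
  have hfd : FiniteDimensional k (CyclotomicField m k) :=
    IsCyclotomicExtension.finiteDimensional {m} k _
  obtain ⟨f, hf⟩ := I2D1_inj (k := k) (C := CyclotomicField m k) (m := m)
  have h1 := Subgroup.card_dvd_of_injective f hf
  rw [IsGalois.card_aut_eq_finrank, Nat.card_eq_fintype_card, ZMod.card_units_eq_totient] at h1
  exact (minpoly.degree_dvd (Algebra.IsIntegral.isIntegral y)).trans h1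

theorem deep_of_dvd {p : ℕ} [Fact p.Prime] (hp2 : p ≠ 2) (k : Type) [Field k] [NumberField k]
    (N : ℕ) : ∃ N' : ℕ, ∀ (K L : Type) [Field K] [NumberField K] [Field L] [NumberField L]
      [Algebra k K] [Algebra k L] [Algebra K L] [IsScalarTower k K L], H78Z.Tw {p} k L →
      (∃ j : ℕ, Module.finrank K L = p ^ j) → p ^ N' ∣ Module.finrank ℚ K →
      H78Z.Deep (p ^ N) K L := by
  have hp : p.Prime := Fact.out
  refine ⟨N + padicValNat p (Module.finrank ℚ k), ?_⟩
  intro K L _ _ _ _ _ _ _ _ hT hj hN x hx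
  obtain ⟨j, hj⟩ := hj
  have hfL : FiniteDimensional k L := Module.Finite.of_restrictScalars_finite ℚ k L
  have hfK : FiniteDimensional k K := Module.Finite.of_restrictScalars_finite ℚ k K
  have hab : IsAbelianGalois k L := hT.abel
  have hgal : IsGalois k L := IsAbelianGalois.toIsGalois
  have hcyc : IsCyclic (L ≃ₐ[k] L) := by
    obtain ⟨-, A, hA, ⟨e⟩⟩ := hT
    obtain ⟨m, rfl⟩ : ∃ m, A = p ^ m :=
      ⟨_, Nat.eq_prime_pow_of_unique_prime_dvd hA.1 fun {d} hd hdA =>
        Finset.mem_singleton.mp (hA.2 d hd hdA)⟩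
    exact I2D1_cyc hp2 m e hgal
  have hpN : p ^ N ≠ 0 := pow_ne_zero _ hp.ne_zero
  obtain ⟨y, hy⟩ := H78Z.conj_k (k := k) (RingHom.id L) hpN x hx
  have hy' : minpoly k y = minpoly k x := hy
  have hI : Module.finrank k (IntermediateField.adjoin k {x}) ∣ Nat.totient (p ^ N) := by
    rw [IntermediateField.adjoin.finrank (Algebra.IsIntegral.isIntegral x), ← hy']
    exact I2D1_deg _ hpN y
  let φ : K →ₐ[k] L := IsScalarTower.toAlgHom k K L
  have hJ : Module.finrank k φ.fieldRange = Module.finrank k K :=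
    (φ.equivFieldRange.toLinearEquiv.finrank_eq).symm
  have hkp : 0 < Module.finrank ℚ k := Module.finrank_pos
  have hKp : 0 < Module.finrank k K := Module.finrank_pos
  have h1 : p ^ N ∣ Module.finrank k K := by
    rw [← Module.finrank_mul_finrank ℚ k K, padicValNat_dvd_iff_le (Nat.mul_pos hkp hKp).ne',
      padicValNat.mul hkp.ne' hKp.ne'] at hN
    rw [padicValNat_dvd_iff_le hKp.ne']
    omega
  have h2 : Module.finrank k (IntermediateField.adjoin k {x}) ∣ Module.finrank k K * p ^ j := by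
    rw [← hj, Module.finrank_mul_finrank k K L]
    exact ⟨_, (Module.finrank_mul_finrank k (IntermediateField.adjoin k {x}) L).symm⟩
  have hd0 : Module.finrank k (IntermediateField.adjoin k {x}) ≠ 0 := Module.finrank_pos.ne'
  have h3 : Module.finrank k (IntermediateField.adjoin k {x}) ∣ Module.finrank k K := by
    obtain ⟨s, t, ht, hst⟩ := Nat.exists_eq_pow_mul_and_not_dvd hd0 p hp.ne_one
    rw [hst] at hI h2 ⊢
    have hcop : Nat.Coprime (p ^ s) t := Nat.Coprime.pow_left _ ((Nat.Prime.coprime_iff_not_dvd hp).2 ht)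
    have hcop2 : Nat.Coprime t (p ^ j) :=
      (Nat.Coprime.pow_left _ ((Nat.Prime.coprime_iff_not_dvd hp).2 ht)).symm
    have hs : s ≤ N := by
      have h4 : p ^ s ∣ Nat.totient (p ^ N) := (Dvd.intro _ rfl).trans hI
      have h5 : p ^ s ≤ p ^ N :=
        (Nat.le_of_dvd (Nat.totient_pos.2 (Nat.pos_of_ne_zero hpN)) h4).trans (Nat.totient_le _)
      exact (Nat.pow_le_pow_iff_right hp.one_lt).1 h5
    refine Nat.Coprime.mul_dvd_of_dvd_of_dvd hcop ((pow_dvd_pow p hs).trans h1) ?_
    exact hcop2.dvd_of_dvd_mul_right ((Dvd.intro_left _ rfl).trans h2)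
  have h4 : IntermediateField.adjoin k {x} ≤ φ.fieldRange := by
    apply I2D1_le hcyc
    rw [hJ]
    exact h3
  obtain ⟨z, hz⟩ := h4 (IntermediateField.mem_adjoin_simple_self k x)
  exact ⟨z, hz⟩

end H68I2
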