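import Pool.Agent.H68.I2.D0
import Pool.Agent.H68.I2.Cv

/-!
# MP_78d38b I2, row D2: deep layers have large degree (about 150 lines)

`H78Z.Deep m K L`: every `x : L` with `minpoly ℚ x = minpoly ℚ y` for some `y : CyclotomicField m ℚ` comes from `K`.

PROOF of `dvd_of_deepR`. `hR`: `L'` is totally real and there is `φ : L' →+* CyclotomicField A ℚ`, `A` a power
of `p`; enlarge: let `A = p ^ a` with `a ≥ N + 1` (`CyclotomicField A ℚ →+* CyclotomicField (p ^ a) ℚ` for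
`A ∣ p ^ a`: see `Kf_hom` in `H78/ZC/Kf.lean` or `H78/ZC/Pd.lean`).  `F := CyclotomicField (p ^ a) ℚ`, its group is
`(ZMod (p ^ a))ˣ` (`IsCyclotomicExtension.Rat.galEquivZMod`; see `H68/TL/Bfa.lean` line 90), cyclic
(`ZMod.isCyclic_units_of_prime_pow`).  Let `I := φ.toRatAlgHom.fieldRange` and `J` the subfield of the
`p ^ (N+1)`-th roots of unity (`IntermediateField.adjoin ℚ {ζ ^ p ^ (a - N - 1)}`, or the range of a
homomorphism from `CyclotomicField (p ^ (N+1)) ℚ`; degree `φ(p^(N+1)) = p ^ N * (p - 1)`, `IsCyclotomicExtension.finrank`,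
`Polynomial.cyclotomic.irreducible_rat`).
(1) if `x : L'` and `φ x ∈ J` then `x` comes from `K'`: `hD` (`minpoly` is invariant under injective
homomorphisms: `minpoly.algHom_eq`).
(2) `[I : ℚ] ∤ p ^ N * (p - 1)`: otherwise `I ≤ J` (`le_of_dvd`), so by (1) `algebraMap K' L'` is surjective and
`finrank K' L' = 1`.
(3) `[I : ℚ] ∣ [F : ℚ] = p ^ (a - 1) * (p - 1)`, so with (2) `p ^ (N+1) ∣ [I : ℚ]` (write `[I : ℚ] = p ^ s * t`,
`p ∤ t`: `Nat.exists_eq_pow_mul_and_not_dvd`; `t ∣ p - 1` by coprimality; if `s ≤ N` then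
`p ^ s * t ∣ p ^ N * (p - 1)`).
(4) `exists_sub` with `d = p ^ N`: `I₀ ≤ I` of degree `p ^ N ∣ [J : ℚ]`, `I₀ ≤ J`.  By (1) every element of `I₀`
comes from `K'`, so `I₀` embeds in `K'` and `p ^ N = [I₀ : ℚ] ∣ [K' : ℚ]` (tower; e.g. the subfield of `K'` of all
`z` with `φ (algebraMap K' L' z) ∈ I₀` is isomorphic to `I₀`).
PROOF of `dvd_of_deep`. `hL.comp hD` gives `K'`, `L'`, `C`, `IsRS {p} L'`, `finrank K' L' = finrank K L`,
`Deep _ K' L'`.  All prime factors of `finrank K' L'` are `p` (`H78Z.mem_S` in `H78/ZC/Pd.lean` with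
`∏ q ∈ {p}, q = p`, `Finset.prod_singleton`), so it is a power of `p`.  `p ^ N ∣ [K' : ℚ] ∣ [K : ℚ]` by `C.g : K' →+* K`
(tower).
-/

set_option autoImplicit false
open scoped Classical

open IsDedekindDomain NumberField

namespace H68I2

variable {p : ℕ} [Fact p.Prime]

private theorem D2_fin {E F : Type} [Field E] [NumberField E] [Field F] [NumberField F]
    (f : E →+* F) : Module.finrank ℚ f.toRatAlgHom.fieldRange = Module.finrank ℚ E :=
  (AlgHom.equivFieldRange f.toRatAlgHom).toLinearEquiv.finrank_eq.symm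

private theorem D2_deg {a : ℕ} {F : Type} [Field F] [NumberField F]
    [IsCyclotomicExtension {p ^ (a + 1)} ℚ F] : Module.finrank ℚ F = p ^ a * (p - 1) := by
  have hp : p.Prime := Fact.out
  have hne : NeZero (p ^ (a + 1)) := ⟨pow_ne_zero _ hp.ne_zero⟩
  rw [IsCyclotomicExtension.finrank (n := p ^ (a + 1)) F
    (Polynomial.cyclotomic.irreducible_rat (Nat.pos_of_neZero _)),
    Nat.totient_prime_pow_succ hp]

private theorem D2_cyc (hp2 : p ≠ 2) {a : ℕ} {F : Type} [Field F] [NumberField F]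
    [IsCyclotomicExtension {p ^ (a + 1)} ℚ F] : IsCyclic (F ≃ₐ[ℚ] F) := by
  have hp : p.Prime := Fact.out
  have hne : NeZero (p ^ (a + 1)) := ⟨pow_ne_zero _ hp.ne_zero⟩
  have h1 : IsCyclic (ZMod (p ^ (a + 1)))ˣ := ZMod.isCyclic_units_of_prime_pow p hp hp2 (a + 1)
  exact isCyclic_of_surjective (IsCyclotomicExtension.Rat.galEquivZMod (p ^ (a + 1)) F).symm
      (IsCyclotomicExtension.Rat.galEquivZMod (p ^ (a + 1)) F).symm.surjective

/-- arithmetic: a divisor of `p ^ a * (p - 1)` which does not divide `p ^ N * (p - 1)` is divisible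
by `p ^ N`. -/
private theorem D2_ar {a N d : ℕ} (h1 : d ∣ p ^ a * (p - 1)) (h2 : ¬ d ∣ p ^ N * (p - 1)) :
    p ^ N ∣ d := by
  have hp : p.Prime := Fact.out
  have hd0 : d ≠ 0 := by
    rintro rfl
    have h3 := zero_dvd_iff.1 h1
    have h4 : 0 < p ^ a * (p - 1) := mul_pos (pow_pos hp.pos _) (by have := hp.two_le; omega)
    omega
  obtain ⟨s, t, ht, hs⟩ := Nat.exists_eq_pow_mul_and_not_dvd hd0 p hp.ne_one
  have htc : Nat.Coprime t (p ^ a) := ((Nat.Prime.coprime_iff_not_dvd hp).2 ht).symm.pow_right a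
  have ht1 : t ∣ p - 1 := by
    refine htc.dvd_of_dvd_mul_left ?_
    exact (Dvd.intro_left _ hs.symm).trans h1
  by_cases hsN : s ≤ N
  · exfalso
    apply h2
    rw [hs]
    exact mul_dvd_mul (pow_dvd_pow p hsN) ht1
  · rw [hs]
    exact dvd_mul_of_dvd_left (pow_dvd_pow p (by omega)) t

theorem dvd_of_deepR (hp2 : p ≠ 2) {K' L' : Type} [Field K'] [NumberField K'] [Field L']
    [NumberField L'] [Algebra K' L'] (hR : H78Z.IsRS {p} L') {N : ℕ}
    (hD : H78Z.Deep (p ^ (N + 1)) K' L') (h1 : Module.finrank K' L' ≠ 1) :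
    p ^ N ∣ Module.finrank ℚ K' := by
  have hp : p.Prime := Fact.out
  obtain ⟨-, A, ⟨hA0, hA⟩, ⟨φ⟩⟩ := hR
  have hAp : ∃ b, A = p ^ b := ⟨_, Nat.eq_prime_pow_of_unique_prime_dvd hA0
    (fun {d} hd hdA => Finset.mem_singleton.1 (hA d hd hdA))⟩
  obtain ⟨b, hb⟩ := hAp
  have iA : NeZero A := ⟨hA0⟩
  have i1 : NeZero (p ^ (b + N + 1)) := ⟨pow_ne_zero _ hp.ne_zero⟩
  have i2 : NeZero (p ^ (N + 1)) := ⟨pow_ne_zero _ hp.ne_zero⟩
  obtain ⟨F, iF, iNF, iC⟩ : ∃ (F : Type) (_ : Field F) (_ : NumberField F),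
      IsCyclotomicExtension {p ^ (b + N + 1)} ℚ F :=
    ⟨CyclotomicField (p ^ (b + N + 1)) ℚ, inferInstance, inferInstance,
      CyclotomicField.isCyclotomicExtension _ _⟩
  have iC2 : IsCyclotomicExtension {p ^ (N + 1)} ℚ (CyclotomicField (p ^ (N + 1)) ℚ) :=
    CyclotomicField.isCyclotomicExtension _ _
  obtain ⟨ψ⟩ := H78Z.cyc_emb (A := A) (B := p ^ (b + N + 1))
    (by rw [hb]; exact pow_dvd_pow p (by omega)) F
  obtain ⟨χ⟩ := H78Z.cyc_emb (A := p ^ (N + 1)) (B := p ^ (b + N + 1))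
    (pow_dvd_pow p (by omega)) F
  have hgal : IsGalois ℚ F := IsCyclotomicExtension.isGalois {p ^ (b + N + 1)} ℚ F
  have hcyc : IsCyclic (F ≃ₐ[ℚ] F) := D2_cyc (p := p) hp2 (a := b + N)
  obtain ⟨Φ, hΦ⟩ : ∃ Φ : L' →+* F, Φ = ψ.comp φ := ⟨_, rfl⟩
  have hJ : Module.finrank ℚ χ.toRatAlgHom.fieldRange = p ^ N * (p - 1) := by
    rw [D2_fin χ]
    exact D2_deg
  have hI : Module.finrank ℚ Φ.toRatAlgHom.fieldRange ∣ p ^ (b + N) * (p - 1) := by
    rw [← D2_deg (p := p) (a := b + N) (F := F)]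
    exact ⟨_, (Module.finrank_mul_finrank ℚ Φ.toRatAlgHom.fieldRange F).symm⟩
  have key : ∀ x : L', Φ x ∈ χ.toRatAlgHom.fieldRange → ∃ z : K', algebraMap K' L' z = x := by
    intro x hx
    obtain ⟨y, hy⟩ := hx
    refine hD x ⟨y, ?_⟩
    rw [← minpoly.algHom_eq χ.toRatAlgHom χ.toRatAlgHom.injective y,
      ← minpoly.algHom_eq Φ.toRatAlgHom Φ.toRatAlgHom.injective x]
    exact congrArg (minpoly ℚ) hy
  have h2 : ¬ Module.finrank ℚ Φ.toRatAlgHom.fieldRange ∣ p ^ N * (p - 1) := by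
    intro h
    rw [← hJ] at h
    have hle := le_of_dvd hcyc h
    apply h1
    have hsurj : Function.Surjective (algebraMap K' L') := fun x => key x (hle ⟨x, rfl⟩)
    have e : K' ≃ₗ[K'] L' := LinearEquiv.ofBijective (Algebra.linearMap K' L')
      ⟨(algebraMap K' L').injective, hsurj⟩
    rw [← e.finrank_eq, Module.finrank_self]
  obtain ⟨I₀, hI0, hd0⟩ := exists_sub hcyc (D2_ar hI h2)
  have hle : I₀ ≤ χ.toRatAlgHom.fieldRange := le_of_dvd hcyc (by
    rw [hd0, hJ]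
    exact dvd_mul_right _ _)
  have hle2 : I₀ ≤ (Φ.comp (algebraMap K' L')).toRatAlgHom.fieldRange := by
    intro w hw
    obtain ⟨x, hx⟩ := hI0 hw
    have hx' : Φ x = w := hx
    obtain ⟨z, hz⟩ := key x (by rw [hx']; exact hle hw)
    refine ⟨z, ?_⟩
    have : Φ (algebraMap K' L' z) = w := by rw [hz, hx']
    exact this
  have h3 := IntermediateField.finrank_dvd_of_le_right hle2
  rw [hd0, D2_fin] at h3
  exact h3

theorem dvd_of_deep (hp2 : p ≠ 2) {k K L : Type} [Field k] [NumberField k] [Field K]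
    [NumberField K] [Field L] [NumberField L] [Algebra k K] [Algebra k L] [Algebra K L]
    [IsScalarTower k K L] (hL : H78Z.Tw {p} k L) {N : ℕ}
    (hD : H78Z.Deep (p ^ (N + 1)) K L) (h1 : Module.finrank K L ≠ 1) :
    p ^ N ∣ Module.finrank ℚ K ∧ ∃ j : ℕ, Module.finrank K L = p ^ j := by
  have hp : p.Prime := Fact.out
  obtain ⟨K', L', _, _, _, _, _, C, hCf, hR, hd, hD'⟩ := hL.comp hD
  rw [← hd] at h1 ⊢
  have hOP : H78Z.OP {p} := by
    intro q hq
    rw [Finset.mem_singleton.1 hq]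
    exact ⟨hp, hp2⟩
  have hK0 : Module.finrank K' L' ≠ 0 := by
    have f1 : FiniteDimensional K' L' := Module.Finite.of_restrictScalars_finite ℚ K' L'
    exact Module.finrank_pos.ne'
  refine ⟨(dvd_of_deepR hp2 hR hD' h1).trans ?_, ⟨_, Nat.eq_prime_pow_of_unique_prime_dvd hK0
    (fun {q} hq hqd => Finset.mem_singleton.1 (H78Z.mem_S hOP (N := N + 1) (by omega) hR
      (by rwa [Finset.prod_singleton]) hq hqd))⟩⟩
  have h3 := IntermediateField.finrank_dvd_of_le_right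
    (le_top : C.g.toRatAlgHom.fieldRange ≤ (⊤ : IntermediateField ℚ K))
  rwa [D2_fin, IntermediateField.finrank_top'] at h3

end H68I2
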