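import Pool.Agent.H68.IW.A3
import Pool.Agent.H73.IS.KTow

/-!
# MP_78d38b I2: the exact formula for the two-Selmer groups (definitions, helper68; no row)
-/

set_option autoImplicit false
open scoped Classical

open WeierstrassCurve IsDedekindDomain NumberField WithZero Pool.Agent.H10 H73IS

namespace H68I2

/-- Among more than `U` everywhere soluble classes with square norm the product of two is a
square. -/
def NewFamQ (K L : Type) [Field K] [NumberField K] [Field L] [NumberField L] [Algebra K L]
    (a b : L) (U : ℕ) : Prop :=
  ∀ (ι : Type) [Fintype ι], U < Fintype.card ι → ∀ d : ι → L, (∀ i, d i ≠ 0) →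
    (∀ i, FinQ L a b (d i)) → (∀ i, InfQ L a b (d i)) →
    (∀ i, IsSquare (Algebra.norm K (d i))) → ∃ i j, i ≠ j ∧ IsSquare (d i * d j)

end H68I2
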