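import Pool.Agent.H68.I2.Df

/-!
# MP_78d38b I2, row Fa: the norm of a Kummer generator (about 70 lines)

`L / K` is cyclic of odd degree `n`, `γ` a generator of the group, `g` an automorphism of the closure
which restricts to `γ`.

PROOF. `hn : orderOf γ = n` (`orderOf_eq_card_of_forall_mem_zpowers` or `orderOf_eq_card_of_forall_mem_powers`,
and `IsGalois.card_aut_eq_finrank`).  `(g ^ j) (algebraMap x) = algebraMap ((γ ^ j) x)`: induction on `j`.
By `hfix` and `Pool.Agent.H10.fixed_of_galois` (`H10/Bridge3.lean`) there is `x : L` with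
`algebraMap x = ∏_j (g ^ j) r`.  Square: `algebraMap (x ^ 2) = ∏_j (g ^ j) (r ^ 2) =
algebraMap (∏_{j < n} (γ ^ j) d)`, injectivity: `x ^ 2 = ∏_{j < n} (γ ^ j) d = ∏_σ σ d` (the map
`j ↦ γ ^ j` from `Finset.range n` to `univ` is bijective: `Finset.prod_nbij'`/`Finset.prod_bij`, injective
by `pow_injOn_Iio_orderOf`, surjective by `hgen` and `pow_mod_orderOf`) `= algebraMap K L (norm d)`
(`Algebra.norm_eq_prod_automorphisms`).  Norms: `(norm x) ^ 2 = (norm d) ^ n` (`Algebra.norm_algebraMap`),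
`n = 2 m + 1`, and `norm d ≠ 0` (`Algebra.norm_ne_zero_iff`; `d ≠ 0` since `r ≠ 0`), so
`norm d = (norm x / (norm d) ^ m) ^ 2`.
-/

set_option autoImplicit false
open scoped Classical

open WeierstrassCurve IsDedekindDomain NumberField WithZero Pool.Agent.H10 H73IS

namespace H68I2

theorem norm_sq {K L : Type} [Field K] [NumberField K] [Field L] [NumberField L] [Algebra K L]
    [IsGalois K L] (hodd : Odd (Module.finrank K L))
    {g : AlgebraicClosure L ≃ₐ[K] AlgebraicClosure L} {γ : L ≃ₐ[K] L}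
    (hγ : ∀ x : L, g (algebraMap L (AlgebraicClosure L) x) =
      algebraMap L (AlgebraicClosure L) (γ x))
    (hgen : ∀ y : L ≃ₐ[K] L, ∃ j : ℕ, y = γ ^ j) {r : AlgebraicClosure L} {d : L} (hr : r ≠ 0)
    (hd : r ^ 2 = algebraMap L (AlgebraicClosure L) d)
    (hfix : ∀ τ : AlgebraicClosure L ≃ₐ[L] AlgebraicClosure L,
      τ (∏ j ∈ Finset.range (Module.finrank K L), (g ^ j) r) =
        ∏ j ∈ Finset.range (Module.finrank K L), (g ^ j) r) :
    IsSquare (Algebra.norm K d) := by
  classical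
  set n := Module.finrank K L with hn0
  have hnpos : 0 < n := Module.finrank_pos
  have hord : orderOf γ = n := by
    rw [orderOf_eq_card_of_forall_mem_powers (g := γ) (fun y => ?_), IsGalois.card_aut_eq_finrank]
    obtain ⟨j, hj⟩ := hgen y
    exact ⟨j, hj.symm⟩
  have hpow : ∀ (j : ℕ) (x : L), (g ^ j) (algebraMap L (AlgebraicClosure L) x) =
      algebraMap L (AlgebraicClosure L) ((γ ^ j) x) := by
    intro j
    induction j with
    | zero => intro x; simp
    | succ j ih =>
      intro x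
      rw [pow_succ, pow_succ, AlgEquiv.mul_apply, AlgEquiv.mul_apply, hγ, ih]
  obtain ⟨x, hx⟩ := fixed_of_galois (k := L) (Ω := AlgebraicClosure L) _ hfix
  have hinj : Function.Injective (algebraMap L (AlgebraicClosure L)) :=
    (algebraMap L (AlgebraicClosure L)).injective
  have hsq : x ^ 2 = ∏ j ∈ Finset.range n, (γ ^ j) d := by
    apply hinj
    rw [map_pow, hx, map_prod, ← Finset.prod_pow]
    refine Finset.prod_congr rfl fun j _ => ?_
    rw [← map_pow, hd, hpow]
  have hprod : (∏ j ∈ Finset.range n, (γ ^ j) d) = ∏ σ : L ≃ₐ[K] L, σ d := by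
    refine Finset.prod_bij (fun j _ => γ ^ j) (fun _ _ => Finset.mem_univ _) ?_ ?_
      (fun _ _ => rfl)
    · intro a ha b hb h
      have ha' : a ∈ Set.Iio (orderOf γ) := by
        rw [hord]; exact Finset.mem_range.1 ha
      have hb' : b ∈ Set.Iio (orderOf γ) := by
        rw [hord]; exact Finset.mem_range.1 hb
      exact pow_injOn_Iio_orderOf ha' hb' h
    · intro y _
      obtain ⟨j, hj⟩ := hgen y
      refine ⟨j % n, Finset.mem_range.2 (Nat.mod_lt _ hnpos), ?_⟩
      rw [hj, ← hord, pow_mod_orderOf]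
  have hN : algebraMap K L (Algebra.norm K d) = x ^ 2 := by
    rw [Algebra.norm_eq_prod_automorphisms, hsq, hprod]
  have hd0 : d ≠ 0 := by
    rintro rfl
    rw [map_zero] at hd
    exact hr (by simpa using hd)
  have hNd : Algebra.norm K d ≠ 0 := Algebra.norm_ne_zero_iff.2 hd0
  have hNN : (Algebra.norm K x) ^ 2 = (Algebra.norm K d) ^ n := by
    rw [← map_pow, ← hN, Algebra.norm_algebraMap]
  obtain ⟨m, hm⟩ := hodd
  refine ⟨Algebra.norm K x / (Algebra.norm K d) ^ m, ?_⟩
  rw [div_mul_div_comm, ← pow_two, hNN, ← hn0] at *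
  rw [hm, eq_div_iff (mul_ne_zero (pow_ne_zero _ hNd) (pow_ne_zero _ hNd))]
  ring

end H68I2
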