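import Pool.Agent.H68.I2.Df

/-!
# MP_78d38b I2, row Fb: the products of the conjugates of the Kummer generators are fixed
(about 110 lines)

`conj (inv_up hV) g f τ` (`H11/Conj.lean`) and `H73IS.cj (inv_up hV) g f τ` (`H73/IS/Cj.lean`) are equal by
`rfl` (both are `act h g (f (g⁻¹ τ g))`); use the `cj` lemmas: `cjg_spec`, `sg_cj`, `cj_two`.  Model: the two
proofs in `H73/IS/I1.lean`.

PROOF of norm_a. For each `j`: `τ ((g ^ j) r) = (g ^ j) (cjg (g ^ j) τ r) = sg (f (cjg (g ^ j) τ)) * (g ^ j) r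
= sg (cj (g ^ j) f τ) * (g ^ j) r` (`map_mul`, `map_intCast`).  By induction on `m`:
`∑ j < m, cj (g ^ j) f τ` is killed by two and `τ (∏ j < m, (g ^ j) r) = sg (∑ j < m, cj (g ^ j) f τ) * ∏ ..`
(`sg_add hE`, `cj_two`).  At `m = n`: the sum is `act τ R - R`, and `sg (act τ R - R) = sg (act τ R) * sg (-R)
= sg R * sg R = 1` (`sg_add`, `-R = R`, `sg (act τ R) = sg R` by `sg_pm`, `Int.units_mul_self`).
PROOF of norm_b. Let `T := ((h.up hV).bc _).T`.  `act (inv_up hV) (g ^ j) T = T` (`pm_T hE _`), so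
`cj (g ^ j) f τ` is `0` with `τ ((g ^ j) r) = (g ^ j) r`, or `T` with `τ ((g ^ j) r) = -(g ^ j) r`.  Induction on `m`:
either the sum of the first `m` terms is `0` and `τ (∏) = ∏`, or it is `T` and `τ (∏) = -∏` (`T_add_T`).
At `m = n` the sum is `0` and `T ≠ 0` (`Affine.Point.some_ne_zero`).
-/

set_option autoImplicit false
open scoped Classical

open WeierstrassCurve IsDedekindDomain NumberField WithZero Pool.Agent.H10 Pool.Agent.H11 H73IS

namespace H68I2

section

variable {K L : Type} [Field K] [NumberField K] [Field L] [NumberField L] [Algebra K L]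
  [Normal K L] {V : WeierstrassCurve K} {V' : WeierstrassCurve L} {a b : K}

theorem norm_a (h : IsTw V a b) (hV : V.map (algebraMap K L) = V') {n : ℕ}
    {g : AlgebraicClosure L ≃ₐ[K] AlgebraicClosure L} {f : Coch L V'}
    (h2 : ∀ σ, f σ + f σ = 0) {R : (V'.baseChange (AlgebraicClosure L)).toAffine.Point}
    (hR : R + R = 0)
    (hsum : ∀ τ, ∑ j ∈ Finset.range n, conj (inv_up hV) (g ^ j) f τ =
      act (inv_bc L V') τ R - R)
    {r : AlgebraicClosure L}
    (hs : ∀ σ : AlgebraicClosure L ≃ₐ[L] AlgebraicClosure L,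
      σ r = ((sg (f σ) : ℤ) : AlgebraicClosure L) * r)
    (τ : AlgebraicClosure L ≃ₐ[L] AlgebraicClosure L) :
    τ (∏ j ∈ Finset.range n, (g ^ j) r) = ∏ j ∈ Finset.range n, (g ^ j) r := by
  have hE := (h.up hV).bc (AlgebraicClosure L)
  have hone : ∀ j, τ ((g ^ j) r) =
      ((sg (H73IS.cj (inv_up hV) (g ^ j) f τ) : ℤ) : AlgebraicClosure L) * (g ^ j) r := by
    intro j
    rw [← cjg_spec (g ^ j) τ r, hs, map_mul, map_intCast, sg_cj]
  have hmain : ∀ m : ℕ,
      ((∑ j ∈ Finset.range m, H73IS.cj (inv_up hV) (g ^ j) f τ) +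
        (∑ j ∈ Finset.range m, H73IS.cj (inv_up hV) (g ^ j) f τ) = 0) ∧
      τ (∏ j ∈ Finset.range m, (g ^ j) r) =
        ((sg (∑ j ∈ Finset.range m, H73IS.cj (inv_up hV) (g ^ j) f τ) : ℤ) :
          AlgebraicClosure L) * ∏ j ∈ Finset.range m, (g ^ j) r := by
    intro m
    induction m with
    | zero =>
      refine ⟨by simp, ?_⟩
      rw [Finset.sum_range_zero, Finset.prod_range_zero, map_one, sg_zero]
      simp
    | succ m ih =>
      obtain ⟨i1, i2⟩ := ih
      have c2 := cj_two (inv_up hV) (g ^ m) h2 τ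
      refine ⟨?_, ?_⟩
      · rw [Finset.sum_range_succ]
        have e : ∀ x y : (V'.baseChange (AlgebraicClosure L)).toAffine.Point,
            (x + y) + (x + y) = (x + x) + (y + y) := fun x y => by abel
        rw [e, i1, c2, add_zero]
      · rw [Finset.prod_range_succ, Finset.sum_range_succ, map_mul, i2, hone m,
          sg_add hE i1 c2]
        push_cast
        ring
  obtain ⟨-, h4⟩ := hmain n
  have h5 : ∑ j ∈ Finset.range n, H73IS.cj (inv_up hV) (g ^ j) f τ =
      act (inv_bc L V') τ R - R := hsum τ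
  have hact : act (inv_bc L V') τ R + act (inv_bc L V') τ R = 0 := by
    rw [← map_add, hR, map_zero]
  have hnR : -R = R := neg_eq_of_add_eq_zero_left hR
  have h6 : sg (act (inv_bc L V') τ R - R) = 1 := by
    rw [sub_eq_add_neg, hnR, sg_add hE hact hR]
    have h7 : sg (act (inv_bc L V') τ R) = sg R := by
      unfold Pool.Agent.H10.act
      exact sg_pm _ _ _
    rw [h7, Int.units_mul_self]
  rw [h4, h5, h6]
  simp

theorem norm_b (h : IsTw V a b) (hV : V.map (algebraMap K L) = V') {n : ℕ}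
    {g : AlgebraicClosure L ≃ₐ[K] AlgebraicClosure L} {f : Coch L V'}
    (hv : ∀ σ, f σ = 0 ∨ f σ = ((h.up hV).bc (AlgebraicClosure L)).T)
    (hsum : ∀ τ, ∑ j ∈ Finset.range n, conj (inv_up hV) (g ^ j) f τ = 0)
    {r : AlgebraicClosure L}
    (hs : ∀ σ : AlgebraicClosure L ≃ₐ[L] AlgebraicClosure L, (f σ = 0 → σ r = r) ∧
      (f σ = ((h.up hV).bc (AlgebraicClosure L)).T → σ r = -r))
    (τ : AlgebraicClosure L ≃ₐ[L] AlgebraicClosure L) :
    τ (∏ j ∈ Finset.range n, (g ^ j) r) = ∏ j ∈ Finset.range n, (g ^ j) r := by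
  have hE := (h.up hV).bc (AlgebraicClosure L)
  have hTT : hE.T + hE.T = 0 := T_add_T hE
  have hone : ∀ j,
      (H73IS.cj (inv_up hV) (g ^ j) f τ = 0 ∧ τ ((g ^ j) r) = (g ^ j) r) ∨
      (H73IS.cj (inv_up hV) (g ^ j) f τ = hE.T ∧ τ ((g ^ j) r) = -((g ^ j) r)) := by
    intro j
    have hactT : act (inv_up hV) (g ^ j) hE.T = hE.T := pm_T hE _
    have e1 : H73IS.cj (inv_up hV) (g ^ j) f τ = act (inv_up hV) (g ^ j) (f (cjg (g ^ j) τ)) := rfl
    rw [e1, ← cjg_spec (g ^ j) τ r]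
    rcases hv (cjg (g ^ j) τ) with h1 | h1
    · left
      rw [h1, (hs _).1 h1, map_zero]
      exact ⟨rfl, rfl⟩
    · right
      rw [h1, (hs _).2 h1, map_neg]
      exact ⟨hactT, rfl⟩
  have hmain : ∀ m : ℕ,
      ((∑ j ∈ Finset.range m, H73IS.cj (inv_up hV) (g ^ j) f τ) = 0 ∧
        τ (∏ j ∈ Finset.range m, (g ^ j) r) = ∏ j ∈ Finset.range m, (g ^ j) r) ∨
      ((∑ j ∈ Finset.range m, H73IS.cj (inv_up hV) (g ^ j) f τ) = hE.T ∧
        τ (∏ j ∈ Finset.range m, (g ^ j) r) = -∏ j ∈ Finset.range m, (g ^ j) r) := by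
    intro m
    induction m with
    | zero =>
      left
      refine ⟨Finset.sum_range_zero _, ?_⟩
      rw [Finset.prod_range_zero, map_one]
    | succ m ih =>
      rcases ih with ⟨i1, i2⟩ | ⟨i1, i2⟩ <;> rcases hone m with ⟨j1, j2⟩ | ⟨j1, j2⟩
      · left
        rw [Finset.prod_range_succ, Finset.sum_range_succ, map_mul, i1, i2, j1, j2, add_zero]
        exact ⟨rfl, rfl⟩
      · right
        rw [Finset.prod_range_succ, Finset.sum_range_succ, map_mul, i1, i2, j1, j2, zero_add]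
        exact ⟨rfl, by ring⟩
      · right
        rw [Finset.prod_range_succ, Finset.sum_range_succ, map_mul, i1, i2, j1, j2, add_zero]
        exact ⟨rfl, by ring⟩
      · left
        rw [Finset.prod_range_succ, Finset.sum_range_succ, map_mul, i1, i2, j1, j2, hTT]
        exact ⟨rfl, by ring⟩
  have h5 : ∑ j ∈ Finset.range n, H73IS.cj (inv_up hV) (g ^ j) f τ = 0 := hsum τ
  rcases hmain n with ⟨-, h6⟩ | ⟨h6, -⟩
  · exact h6
  · exfalso
    rw [h5] at h6
    exact Affine.Point.some_ne_zero _ h6.symm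

end

end H68I2
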