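import Pool.Agent.H68.I2.Fa
import Pool.Agent.H68.I2.Fb
import Pool.Agent.H73.IS.I1

/-!
# MP_78d38b I2, row Fc: the bound for the number of the new classes of order two (about 170 lines)

Uses the statements of Fa and Fb; models: `H73/IS/I1.lean` (`i1`, `i2`).  `conj` (`H11/Conj.lean`) and
`H73IS.cj` are equal by `rfl`.

PROOF of xtriv. `kum` (`H73/IS/Kum.lean`) for `E := V'.baseChange (AlgebraicClosure L)`,
`hE := (h.up hV).bc _`: `r`, `d`, `r ≠ 0`, `r ^ 2 = d`, `σ r = sg (f σ) r`.  `loc_a (h.up hV) hf.2.1 hf.2.2 hr hd hs`: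
`FinQ`, `InfQ`.  `norm_sq hodd hγ hgen hr hd (norm_a ..)`: the norm of `d` is a square.  `H` gives `d = s * s`;
`I1_fix`: `σ r = r`, so `sg (f σ) = 1` (else `r = -r`), as in `i1`.
PROOF of shift. `f' := fun τ => f τ - (act (inv_bc L V') τ R - R)`.  `Sl L V' f'`: the coboundary of `R` is a
cocycle, locally trivial (`shaB_le`, `isCobound_iff` as in `H68/IW/A3.lean`), two kills it; `Sl.sub`.
`sg (f' τ) = sg (f τ) * sg (act τ R - R) = 1` (as in `norm_a`).  The sum: `cj_sub`, `cj_cob`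
(`H73/IS/Cj.lean`): `∑_j cj (g ^ j) f' τ = (act τ R - R) - (act τ S' - S')` with `S' := ∑_j act (inv_up hV) (g ^ j) R`;
`S := R - S'` is killed by two and `sg S = sg R * sg R ^ n = 1` because `n` is odd (`sg_add` by induction,
`sg_pm`), so `S = 0` or `S = T` (`sg_one`), and `act τ S = S` (`act_T`).  `act τ R - R - (act τ S' - S') =
act τ S - S = 0`.
PROOF of famL_of. `intro ι _ hι f hc hl h2 hR`; `choose R hR2 hRs using hR`.  `Sl L V' (f i)` for every `i`
(`two_nsmul`).  `xtriv` gives `sg (f i τ) = 1`; `shift` gives `f' i` (`choose`); values in `{0, T}` by `sg_one`;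
`kum_T` gives `r' i`, `d' i` (`choose`); `loc_b` gives `FinQ`, `InfQ` for `(-2a, a ^ 2 - 4 b)` over `L`
(`algebraMap K L (-2 * a) = -2 * algebraMap K L a` as at the end of `i2`); `norm_sq` with `norm_b`: the
norms are squares.  `H' ι hι d' ..` gives `i ≠ j` with `d' i * d' j` a square, so by `I1_fix` for
`r' i * r' j`, `τ (r' i * r' j) = r' i * r' j`; hence `f' i τ = f' j τ` for all `τ` (otherwise
one of the two changes sign: `r' i * r' j = -(r' i * r' j)`, so it is `0`).  `S := R i - R j`: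
`f i τ - f j τ = (act τ (R i) - R i) - (act τ (R j) - R j)`.
-/

set_option autoImplicit false
open scoped Classical

open WeierstrassCurve IsDedekindDomain NumberField WithZero Pool.Agent.H10 Pool.Agent.H11 H73IS

namespace H68I2

section

variable {K L : Type} [Field K] [NumberField K] [Field L] [NumberField L] [Algebra K L]
  [IsGalois K L] {V : WeierstrassCurve K} {V' : WeierstrassCurve L} {a b : K}

theorem xtriv (hodd : Odd (Module.finrank K L)) (h : IsTw V a b)
    (hV : V.map (algebraMap K L) = V') (H : NewTrivQ K L (algebraMap K L a) (algebraMap K L b))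
    {g : AlgebraicClosure L ≃ₐ[K] AlgebraicClosure L} {γ : L ≃ₐ[K] L}
    (hγ : ∀ x : L, g (algebraMap L (AlgebraicClosure L) x) =
      algebraMap L (AlgebraicClosure L) (γ x))
    (hgen : ∀ y : L ≃ₐ[K] L, ∃ j : ℕ, y = γ ^ j) {f : Coch L V'} (hf : Sl L V' f)
    {R : (V'.baseChange (AlgebraicClosure L)).toAffine.Point} (hR : R + R = 0)
    (hsum : ∀ τ, ∑ j ∈ Finset.range (Module.finrank K L), conj (inv_up hV) (g ^ j) f τ =
      act (inv_bc L V') τ R - R)
    (τ : AlgebraicClosure L ≃ₐ[L] AlgebraicClosure L) : sg (f τ) = 1 := by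
  have hE := (h.up hV).bc (AlgebraicClosure L)
  obtain ⟨r, d, hr, hd, hs⟩ := kum hE (inv_bc L V') ((isCocycle_iff f).1 hf.1) hf.2.2
  obtain ⟨hF, hI⟩ := loc_a (h.up hV) hf.2.1 hf.2.2 hr hd hs
  have hn := norm_sq hodd hγ hgen hr hd (norm_a h hV hf.2.2 hR hsum hs)
  have hdd : d ≠ 0 := by
    intro h0
    rw [h0, map_zero] at hd
    exact hr (pow_eq_zero_iff (two_ne_zero)|>.1 hd)
  obtain ⟨s, hs2⟩ := H d hdd hF hI hn
  have hfix : τ r = r := I1_fix hd hs2 τ
  rcases Int.units_eq_one_or (sg (f τ)) with h1 | h1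
  · exact h1
  · exfalso
    have h2 := hs τ
    rw [h1, hfix] at h2
    push_cast at h2
    apply hr
    have h3 : (2 : AlgebraicClosure L) * r = 0 := by linear_combination h2
    rcases mul_eq_zero.1 h3 with h4 | h4
    · exact absurd h4 two_ne_zero
    · exact h4

theorem Fc_cob {L : Type} [Field L] [NumberField L] {V' : WeierstrassCurve L}
    {R : (V'.baseChange (AlgebraicClosure L)).toAffine.Point} (hR : R + R = 0) :
    Sl L V' (fun τ => act (inv_bc L V') τ R - R) := by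
  have h1 : (fun τ => act (inv_bc L V') τ R - R) ∈ ShaZ L V' := by
    apply shaB_le
    change IsCobound L V' _
    rw [Pool.Agent.H10.isCobound_iff]
    exact ⟨R, fun σ => rfl⟩
  refine ⟨h1.1, h1.2, fun τ => ?_⟩
  have e : act (inv_bc L V') τ R - R + (act (inv_bc L V') τ R - R) =
      act (inv_bc L V') τ (R + R) - (R + R) := by
    rw [map_add]
    abel
  rw [e, hR, map_zero, sub_zero]

theorem Fc_sg {k Ω : Type*} [Field k] [Field Ω] [Algebra k Ω] {E : WeierstrassCurve Ω} {a b : Ω}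
    (hE : IsTw E a b) (hi : Inv k E) {R : E.toAffine.Point} (hR : R + R = 0) (τ : Ω ≃ₐ[k] Ω) :
    sg (act hi τ R - R) = 1 := by
  have e1 : -R = R := neg_eq_of_add_eq_zero_left hR
  have e2 : act hi τ R + act hi τ R = 0 := by rw [← map_add, hR, map_zero]
  rw [sub_eq_add_neg, e1, sg_add hE e2 hR]
  have e3 : sg (act hi τ R) = sg R := sg_pm _ _ _
  rw [e3, Int.units_mul_self]

theorem Fc_sum {k Ω : Type*} [Field k] [Field Ω] [Algebra k Ω] {E : WeierstrassCurve Ω} {a b : Ω}
    (hE : IsTw E a b) (hi : Inv k E) {R : E.toAffine.Point} (hR : R + R = 0) (g : Ω ≃ₐ[k] Ω)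
    (n : ℕ) : (∑ j ∈ Finset.range n, act hi (g ^ j) R) + (∑ j ∈ Finset.range n, act hi (g ^ j) R)
      = 0 ∧ sg (∑ j ∈ Finset.range n, act hi (g ^ j) R) = sg R ^ n := by
  induction n with
  | zero =>
    rw [Finset.sum_range_zero, pow_zero]
    exact ⟨add_zero 0, sg_zero⟩
  | succ n ih =>
    have e2 : act hi (g ^ n) R + act hi (g ^ n) R = 0 := by rw [← map_add, hR, map_zero]
    have e3 : sg (act hi (g ^ n) R) = sg R := sg_pm _ _ _
    rw [Finset.sum_range_succ]
    refine ⟨?_, ?_⟩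
    · rw [add_add_add_comm, ih.1, e2, add_zero]
    · rw [sg_add hE ih.1 e2, ih.2, e3, pow_succ]

theorem shift (h : IsTw V a b) (hV : V.map (algebraMap K L) = V') {n : ℕ} (hn : Odd n)
    {g : AlgebraicClosure L ≃ₐ[K] AlgebraicClosure L} {f : Coch L V'} (hf : Sl L V' f)
    (hs : ∀ τ, sg (f τ) = 1)
    {R : (V'.baseChange (AlgebraicClosure L)).toAffine.Point} (hR : R + R = 0)
    (hsum : ∀ τ, ∑ j ∈ Finset.range n, conj (inv_up hV) (g ^ j) f τ =
      act (inv_bc L V') τ R - R) :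
    ∃ f' : Coch L V', Sl L V' f' ∧ (∀ τ, f' τ = f τ - (act (inv_bc L V') τ R - R)) ∧
      (∀ τ, sg (f' τ) = 1) ∧
      ∀ τ, ∑ j ∈ Finset.range n, conj (inv_up hV) (g ^ j) f' τ = 0 := by
  have hE := (h.up hV).bc (AlgebraicClosure L)
  have hcob := Fc_cob hR
  have hconj : ∀ (s : AlgebraicClosure L ≃ₐ[K] AlgebraicClosure L)
      (τ : AlgebraicClosure L ≃ₐ[L] AlgebraicClosure L),
      conj (inv_up hV) s (fun τ => f τ - (act (inv_bc L V') τ R - R)) τ =
        conj (inv_up hV) s f τ - (act (inv_bc L V') τ (act (inv_up hV) s R) -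
          act (inv_up hV) s R) := by
    intro s τ
    have e1 := H73IS.cj_cob (L := L) (inv_up hV) s R τ
    have e2 : conj (inv_up hV) s (fun τ => f τ - (act (inv_bc L V') τ R - R)) τ =
        act (inv_up hV) s (f (H73IS.cjg s τ) - (act (inv_bc L V') (H73IS.cjg s τ) R - R)) := rfl
    rw [e2, map_sub]
    have e3 : act (inv_up hV) s (act (inv_bc L V') (H73IS.cjg s τ) R - R) =
        act (inv_bc L V') τ (act (inv_up hV) s R) - act (inv_up hV) s R := e1
    rw [e3]
    rfl
  refine ⟨fun τ => f τ - (act (inv_bc L V') τ R - R), hf.sub hcob, fun τ => rfl, ?_, ?_⟩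
  · intro τ
    have e1 := hcob.2.2 τ
    have e2 : -(act (inv_bc L V') τ R - R) = act (inv_bc L V') τ R - R :=
      neg_eq_of_add_eq_zero_left e1
    show sg (f τ - (act (inv_bc L V') τ R - R)) = 1
    rw [sub_eq_add_neg, e2, sg_add hE (hf.2.2 τ) e1, hs, Fc_sg hE _ hR, one_mul]
  · intro τ
    rw [Finset.sum_congr rfl fun j _ => hconj (g ^ j) τ, Finset.sum_sub_distrib, hsum,
      Finset.sum_sub_distrib, ← map_sum]
    obtain ⟨h1, h2⟩ := Fc_sum hE (inv_up hV) hR g n
    obtain ⟨S', hS'⟩ : ∃ S', S' = ∑ j ∈ Finset.range n, act (inv_up hV) (g ^ j) R := ⟨_, rfl⟩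
    rw [← hS'] at h1 h2 ⊢
    have h3 : (R - S') + (R - S') = 0 := by
      have e : (R - S') + (R - S') = (R + R) - (S' + S') := by abel
      rw [e, hR, h1, sub_zero]
    have h4 : sg (R - S') = 1 := by
      have e1 : -S' = S' := neg_eq_of_add_eq_zero_left h1
      rw [sub_eq_add_neg, e1, sg_add hE hR h1, h2, ← pow_succ']
      obtain ⟨m, hm⟩ := hn
      have e2 : n + 1 = 2 * (m + 1) := by omega
      rw [e2, pow_mul, sq, Int.units_mul_self, one_pow]
    have h5 : act (inv_bc L V') τ (R - S') = R - S' := by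
      rcases sg_one hE h3 h4 with h6 | h6
      · rw [h6, map_zero]
      · rw [h6]
        exact act_T hE (inv_bc L V') τ
    rw [map_sub] at h5
    have e : act (inv_bc L V') τ R - R - (act (inv_bc L V') τ S' - S') =
        act (inv_bc L V') τ R - act (inv_bc L V') τ S' - (R - S') := by abel
    rw [e, h5, sub_self]

theorem famL_of (hodd : Odd (Module.finrank K L)) (h : IsTw V a b)
    (hV : V.map (algebraMap K L) = V') {g : AlgebraicClosure L ≃ₐ[K] AlgebraicClosure L}
    {γ : L ≃ₐ[K] L} (hγ : ∀ x : L, g (algebraMap L (AlgebraicClosure L) x) =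
      algebraMap L (AlgebraicClosure L) (γ x))
    (hgen : ∀ y : L ≃ₐ[K] L, ∃ j : ℕ, y = γ ^ j) {U : ℕ}
    (H : NewTrivQ K L (algebraMap K L a) (algebraMap K L b))
    (H' : NewFamQ K L (algebraMap K L (-2 * a)) (algebraMap K L (a ^ 2 - 4 * b)) U) :
    H68IW.FamL 2 hV g (Module.finrank K L) U := by
  intro ι _ hι f hc hl h2 hR
  have hE := (h.up hV).bc (AlgebraicClosure L)
  choose R hR2 hRs using hR
  have hRR : ∀ i, R i + R i = 0 := fun i => by rw [← two_nsmul]; exact hR2 i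
  have hSl : ∀ i, Sl L V' (f i) := fun i =>
    ⟨hc i, hl i, fun σ => by rw [← two_nsmul]; exact h2 i σ⟩
  have hx : ∀ i τ, sg (f i τ) = 1 := fun i τ =>
    xtriv hodd h hV H hγ hgen (hSl i) (hRR i) (hRs i) τ
  choose f' hSl' heq hsg hsum using fun i => shift h hV hodd (hSl i) (hx i) (hRR i) (hRs i)
  have hv : ∀ i σ, f' i σ = 0 ∨ f' i σ = ((h.up hV).bc (AlgebraicClosure L)).T :=
    fun i σ => sg_one hE ((hSl' i).2.2 σ) (hsg i σ)
  choose r d hr hd hs using fun i =>
    kum_T hE (inv_bc L V') ((isCocycle_iff (f' i)).1 (hSl' i).1) (hv i)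
  have hτ : ∀ i (σ : AlgebraicClosure L ≃ₐ[L] AlgebraicClosure L),
      (f' i σ = 0 ∧ σ (r i) = r i) ∨
      (f' i σ = ((h.up hV).bc (AlgebraicClosure L)).T ∧ σ (r i) = -r i) := by
    intro i σ
    rcases hv i σ with h1 | h1
    · exact Or.inl ⟨h1, (hs i σ).1 h1⟩
    · exact Or.inr ⟨h1, (hs i σ).2 h1⟩
  have hloc := fun i => loc_b (h.up hV) (hSl' i).2.1 (hr i) (hd i) (hτ i)
  have hn : ∀ i, IsSquare (Algebra.norm K (d i)) := fun i =>
    norm_sq hodd hγ hgen (hr i) (hd i) (norm_b h hV (hv i) (hsum i) (hs i))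
  have hdd : ∀ i, d i ≠ 0 := by
    intro i h0
    have h1 := hd i
    rw [h0, map_zero] at h1
    exact hr i (pow_eq_zero_iff (two_ne_zero)|>.1 h1)
  have e2 : algebraMap K L 2 = 2 := map_ofNat _ 2
  have e4 : algebraMap K L 4 = 4 := map_ofNat _ 4
  have ea : algebraMap K L (-2 * a) = -2 * algebraMap K L a := by
    rw [map_mul, map_neg, e2]
  have eb : algebraMap K L (a ^ 2 - 4 * b) = (algebraMap K L a) ^ 2 - 4 * algebraMap K L b := by
    rw [map_sub, map_pow, map_mul, e4]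
  rw [ea, eb] at H'
  obtain ⟨i, j, hij, s, hs2⟩ := H' ι hι d hdd (fun i => (hloc i).1) (fun i => (hloc i).2) hn
  have hd2 : (r i * r j) ^ 2 = algebraMap L (AlgebraicClosure L) (d i * d j) := by
    rw [mul_pow, hd, hd, map_mul]
  have hr' : r i * r j ≠ 0 := mul_ne_zero (hr i) (hr j)
  have hne : ∀ τ : AlgebraicClosure L ≃ₐ[L] AlgebraicClosure L,
      τ (r i * r j) ≠ -(r i * r j) := by
    intro τ h1
    rw [I1_fix hd2 hs2 τ] at h1
    apply hr'
    have h3 : (2 : AlgebraicClosure L) * (r i * r j) = 0 := by linear_combination h1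
    rcases mul_eq_zero.1 h3 with h4 | h4
    · exact absurd h4 two_ne_zero
    · exact h4
  have hff : ∀ τ, f' i τ = f' j τ := by
    intro τ
    rcases hτ i τ with ⟨h1, h3⟩ | ⟨h1, h3⟩ <;> rcases hτ j τ with ⟨h4, h5⟩ | ⟨h4, h5⟩
    · rw [h1, h4]
    · exact absurd (by rw [map_mul, h3, h5]; ring) (hne τ)
    · exact absurd (by rw [map_mul, h3, h5]; ring) (hne τ)
    · rw [h1, h4]
  refine ⟨i, j, hij, R i - R j, ?_, ?_⟩
  · rw [nsmul_sub, hR2, hR2, sub_zero]
  · intro τ
    have h1 := hff τ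
    rw [heq, heq] at h1
    rw [map_sub]
    have e : f i τ - f j τ = (f i τ - (act (inv_bc L V') τ (R i) - R i)) -
        (f j τ - (act (inv_bc L V') τ (R j) - R j)) +
        (act (inv_bc L V') τ (R i) - act (inv_bc L V') τ (R j) - (R i - R j)) := by abel
    rw [e, h1, sub_self, zero_add]

end

end H68I2
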