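import Pool.Agent.H68.I2.Df
import Pool.Agent.H68.I2.Cv
import Pool.Agent.H5.IM.Gro
import Pool.Agent.H86.IW.Ba

/-!
# MP_78d38b I2, row Lb: the lower bound for the two-Selmer group (about 90 lines)

PROOF. `bound_curve p hp2 hk.unr hb0 hd0` (`H5/IM/Gro.lean`; `Unr2 k` is `hk.unr`): `Bound p k a b (weight k a b)
(2 ^ card (InfinitePlace k))`, with constant `C`.  `k` is totally real: `card (InfinitePlace k) = [k : ℚ] =: m`
and the number of all `φ : k →+* ℝ` is `m` (`InfinitePlace.card_add_two_mul_card_eq_rank`,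
`IsTotallyReal.nrComplexPlaces_eq_zero`, `card_places` / `card_signature` in `H5/IM/Gro.lean` or near), and by `hR`
the condition in `weight` holds for all `φ`, so `weight k a b = 2 ^ m * ∏ v ∈ S, absNorm v` (`weight_eq`
in `H5/IM/Gro.lean`, `hS`; `above2`, `mem_above2`).  The inequality is
`(2 ^ m * A) ^ n ≤ (2 ^ m) ^ n * (C * (P.card * T.card))`, `n = finrank k L`; cancel `(2 ^ m) ^ n` (`mul_pow`).
For `L` with `Tw {p} k L`: `Tw.comp` with `K := k` (`Deep 1 k L`? if inconvenient use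
`H78Z.exists_real` (`H78/ZC/Kf.lean`)) gives `L'` totally real, `L' →+* CyclotomicField A ℚ`, `h : L' →+* L`,
`adjoin k (range h) = ⊤`; `IsR p L'` (`A = p ^ m'`; for `m' = 0` map `CyclotomicField 1 ℚ` to `CyclotomicField p ℚ`,
as in row Cv; simplest: first `lay_of_tw`, then `exists_real` with `A = p ^ (n + 1)`).  `P` and `T` from
`H86I.exists_P`, `H86I.exists_T` (`H86/IW/Ba.lean`) with `l = 2` (`two_nsmul`) for `V := ecurve L a b`
(discriminant `≠ 0`: `IsTw.isElliptic` in `H73/IS/Asm.lean`), `P.card * T.card ≤ sel 2 L _`.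
`(ecurve k a b).map (algebraMap k L) = ecurve L a b`: `ext` on coefficients.
-/

set_option autoImplicit false
open scoped Classical

open WeierstrassCurve IsDedekindDomain NumberField WithZero Pool.Agent.H10 Pool.Agent.H11 H73IS
  H68IW

namespace H68I2

private theorem Lb_weight {k : Type} [Field k] [NumberField k] (hr : IsTotallyReal k)
    {a b : 𝓞 k} (hR : RR k a b) {S : Finset (HeightOneSpectrum (𝓞 k))}
    (hS : ∀ v, v ∈ S ↔ (2 : 𝓞 k) ∈ v.asIdeal ∧ SmallAt v a b) :
    H5IM.weight k a b = 2 ^ Fintype.card (InfinitePlace k) *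
      ∏ v ∈ S, Ideal.absNorm v.asIdeal := by
  have h1 := H5IM.card_signature (k := k) (fun φ => H86IK.RAt (a : k) (b : k) φ)
  have h2 : Nat.card {φ : k →+* ℝ // ¬ H86IK.RAt (a : k) (b : k) φ} = 0 := by
    rw [Nat.card_eq_zero]
    left
    exact ⟨fun φ => φ.2 (hR φ.1)⟩
  have h3 := InfinitePlace.card_add_two_mul_card_eq_rank k
  have h4 := InfinitePlace.card_eq_nrRealPlaces_add_nrComplexPlaces k
  have h5 : InfinitePlace.nrComplexPlaces k = 0 := IsTotallyReal.nrComplexPlaces_eq_zero k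
  have h6 : Nat.card {φ : k →+* ℝ // H86IK.RAt (a : k) (b : k) φ} =
      Fintype.card (InfinitePlace k) := by
    omega
  have h7 : (H5IM.above2 k).filter (fun v => SmallAt v a b) = S := by
    ext v
    rw [Finset.mem_filter, H5IM.mem_above2, hS v]
  rw [H5IM.weight_eq, h6, h7]

theorem lowB_two {p : ℕ} [Fact p.Prime] (hp2 : p ≠ 2) {k : Type} [Field k] [NumberField k]
    (hk : TwoBase k) {a b : 𝓞 k} (hb0 : b ≠ 0) (hd0 : a ^ 2 - 4 * b ≠ 0) (hR : RR k a b)
    {S : Finset (HeightOneSpectrum (𝓞 k))}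
    (hS : ∀ v, v ∈ S ↔ (2 : 𝓞 k) ∈ v.asIdeal ∧ SmallAt v a b) :
    H78Z.LowB {p} 2 (ecurve k a b) (∏ v ∈ S, Ideal.absNorm v.asIdeal) := by
  obtain ⟨C, hC⟩ := H5IM.bound_curve (k := k) p hp2 hk.unr hb0 hd0
  refine ⟨C, ?_⟩
  intro L _ _ _ hT
  obtain ⟨hr, n, ⟨j⟩⟩ := lay_of_tw hT
  have hA : p ^ (n + 1) ≠ 0 := pow_ne_zero _ (Fact.out : p.Prime).ne_zero
  obtain ⟨L', _, _, g, hr', he, hgen⟩ := H78Z.exists_real hA hr j
  have hV : (ecurve k a b).map (algebraMap k L) = ecurve L a b := by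
    ext <;> simp [ecurve]
  rw [hV]
  have hb' : (b : k) ≠ 0 := by simpa using hb0
  have hd' : (a : k) ^ 2 - 4 * (b : k) ≠ 0 := by
    intro h1
    apply hd0
    apply RingOfIntegers.coe_injective
    rw [map_zero, map_sub, map_mul, map_pow, map_ofNat]
    exact h1
  have hTw : IsTw (ecurve L a b) (algebraMap k L a) (algebraMap k L b) := by
    refine ⟨rfl, rfl, rfl, rfl, rfl, ?_, ?_, two_ne_zero⟩
    · intro h0
      exact hb' ((algebraMap k L).injective (by rw [h0, map_zero]))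
    · intro h0
      apply hd'
      apply (algebraMap k L).injective
      rw [map_zero, map_sub, map_mul, map_pow]
      rw [← h0]
      congr 2
      exact map_ofNat _ 4
  have hΔ : (ecurve L a b).Δ ≠ 0 := isUnit_iff_ne_zero.1 hTw.isElliptic.isUnit
  obtain ⟨P, hPc, hP⟩ := H86I.exists_P (V := ecurve L a b) hΔ (l := 2) two_ne_zero
  obtain ⟨T, hTc, hT'⟩ := H86I.exists_T (V := ecurve L a b) hΔ (l := 2) two_ne_zero
  have h1 := hC L' L g ⟨hr', n, he⟩ hgen P T
    (fun X => by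
      obtain ⟨q, hq, s, hs⟩ := hP X
      exact ⟨q, hq, s, by rw [hs, two_nsmul]⟩)
    (fun f hf hf' hlf => hT' f hf hf' (by
      have h2 : (fun σ => 2 • f σ) = fun σ => f σ + f σ := funext fun σ => two_nsmul _
      rw [h2]
      exact hlf))
  rw [Lb_weight hk.real hR hS, mul_pow] at h1
  have h2 : 0 < (2 ^ Fintype.card (InfinitePlace k)) ^ Module.finrank k L := by positivity
  have h3 := Nat.le_of_mul_le_mul_left h1 h2
  refine h3.trans (Nat.mul_le_mul_left _ ?_)
  exact Nat.mul_le_mul hPc hTc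

end H68I2
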