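import Pool.Agent.H68.I2.Nb
import Pool.Agent.H68.I2.Lb
import Pool.Agent.H68.I2.D1

/-!
# MP_78d38b I2: the exact formula for the two-Selmer groups (assembly, helper68)
-/

set_option autoImplicit false
open scoped Classical

open WeierstrassCurve IsDedekindDomain NumberField WithZero Pool.Agent.H10 Pool.Agent.H11 H73IS
  H68IW

namespace H68I2

theorem ecurve_map {k L : Type} [Field k] [NumberField k] [Field L] [Algebra k L] (a b : 𝓞 k) :
    (ecurve k a b).map (algebraMap k L) = ecurve L a b := by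
  unfold ecurve
  ext <;> simp

theorem iwasawa_two {p : ℕ} [Fact p.Prime] (hp2 : p ≠ 2) {k : Type} [Field k] [NumberField k]
    (hk : TwoBase k) {a b : 𝓞 k} (hb0 : b ≠ 0) (hd0 : a ^ 2 - 4 * b ≠ 0) (hR : RR k a b)
    {S : Finset (HeightOneSpectrum (𝓞 k))}
    (hS : ∀ v, v ∈ S ↔ (2 : 𝓞 k) ∈ v.asIdeal ∧ SmallAt v a b) :
    ∃ N : ℕ, ∀ (K L : Type) [Field K] [NumberField K] [Field L] [NumberField L] [Algebra k K]
      [Algebra k L] [Algebra K L] [IsScalarTower k K L], IsLay p k L →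
      (∃ i : ℕ, Module.finrank K L = p ^ i) → p ^ N ∣ Module.finrank ℚ K →
      sel 2 L (ecurve L a b) =
        (∏ v ∈ S, Ideal.absNorm v.asIdeal) ^ (Module.finrank k L - Module.finrank k K) *
          sel 2 K (ecurve K a b) := by
  have hp : p.Prime := Fact.out
  have hOP : H78Z.OP {p} := fun q hq => by
    rw [Finset.mem_singleton] at hq
    rw [hq]
    exact ⟨hp, hp2⟩
  have h2S : 2 ∉ ({p} : Finset ℕ) := fun h => hp2 (Finset.mem_singleton.1 h).symm
  have hSl : ∀ v ∈ S, ((2 : ℕ) : 𝓞 k) ∈ v.asIdeal := fun v hv => by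
    have := ((hS v).1 hv).1
    simpa using this
  have hE : (ecurve k a b).Δ ≠ 0 := by
    have hT : IsTw (ecurve k a b) (a : k) (b : k) := by
      refine ⟨rfl, rfl, rfl, rfl, rfl, ?_, ?_, two_ne_zero⟩
      · intro h
        exact hb0 (RingOfIntegers.coe_injective (by simpa using h))
      · intro h
        apply hd0
        apply RingOfIntegers.coe_injective
        change algebraMap (𝓞 k) k (a ^ 2 - 4 * b) = algebraMap (𝓞 k) k 0
        rw [map_sub, map_mul, map_pow, map_ofNat, map_zero]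
        exact h
    exact hT.isElliptic.isUnit.ne_zero
  obtain ⟨m, hm⟩ := H78Z.absNorm_pow Nat.prime_two S hSl
  obtain ⟨N, h⟩ := H78Z.exact_of hOP Nat.prime_two h2S hE hm
    (lowB_two hp2 hk hb0 hd0 hR hS)
    (H78Z.upB hOP Nat.prime_two h2S hSl (newB_two hp2 hk hb0 hd0 hR hS))
  obtain ⟨N', h'⟩ := deep_of_dvd hp2 k N
  refine ⟨N', ?_⟩
  intro K L _ _ _ _ _ _ _ _ hL hj hN
  have hT := tw_of_lay hL
  have h3 := h K L hT (by
    rw [Finset.prod_singleton]
    exact h' K L hT hj hN)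
  rw [ecurve_map, ecurve_map] at h3
  exact h3

end H68I2
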