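import Pool.Agent.H68.I2.Df

/-!
# MP_78d38b I2: the local form of the classes above two at the not exceptional primes (helper68)
-/

set_option autoImplicit false
open scoped Classical

open NumberField IsDedekindDomain WithZero Pool.Agent.H10 H73IS

namespace H68I2

variable {k L : Type} [Field k] [NumberField k] [Field L] [NumberField L] [Algebra k L]

theorem kap_at {a b : 𝓞 k} {d : L} (hd : d ≠ 0) (w : HeightOneSpectrum (𝓞 L))
    (hw : (2 : 𝓞 L) ∈ w.asIdeal) (hunr : (2 : 𝓞 L) ∉ w.asIdeal ^ 2)
    (hev : Even (log (w.valuation L d))) (hS : SmallAt (below k w) a b)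
    (Hf : QPt (algebraMap L (w.adicCompletion L) (algebraMap k L a))
      (algebraMap L (w.adicCompletion L) (algebraMap k L b))
      (algebraMap L (w.adicCompletion L) d)) : KapK k (w.valuation L) d := by
  have hv2 := val_two_of_unram hw (hunr)
  letI : Algebra k (w.adicCompletion L) :=
    ((algebraMap L (w.adicCompletion L)).comp (algebraMap k L)).toAlgebra
  haveI hST : IsScalarTower k L (w.adicCompletion L) := IsScalarTower.of_algebraMap_eq fun x => rfl
  apply kapK_descend w hv2
  have e2 : Valued.v (2 : w.adicCompletion L) = exp (-1 : ℤ) := by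
    rw [valued_ofNat w 2]; exact hv2
  have h20 : (2 : w.adicCompletion L) ≠ 0 := by
    intro h0
    rw [h0, map_zero] at e2
    exact exp_ne_zero e2.symm
  have hd' : algebraMap L (w.adicCompletion L) d ≠ 0 := by
    rw [Ne, map_eq_zero]
    exact hd
  have hev' : Even (log (Valued.v (algebraMap L (w.adicCompletion L) d))) := by
    rw [valued_algebraMap]
    exact hev
  -- valuations of elements of `k`
  have hk : ∀ x : k, Valued.v (algebraMap k (w.adicCompletion L) x) =
      w.valuation L (algebraMap k L x) := fun x => by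
    change Valued.v (algebraMap L (w.adicCompletion L) (algebraMap k L x)) = _
    rw [valued_algebraMap]
  have hkv : ∀ x : k, Valued.v (algebraMap k (w.adicCompletion L) x) =
      (below k w).valuation k x := fun x => by
    rw [hk, val_eq w hw (hunr)]
  have h2k : (2 : 𝓞 k) ∈ (below k w).asIdeal := by
    rw [mem_below, map_ofNat]
    exact hw
  have hP : ∀ x : k, Valued.v (algebraMap k (w.adicCompletion L) x) ≤ 1 →
      ∃ s : k, Valued.v (algebraMap k (w.adicCompletion L) (x - s ^ 2)) < 1 := by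
    intro x hx
    rw [hkv] at hx
    obtain ⟨s, hs⟩ := perf (below k w) h2k x hx
    exact ⟨s, by rw [hkv]; exact hs⟩
  obtain ⟨i, s1, s2, s3, s4⟩ := hS
  have hmem := fun (x : 𝓞 k) (n : ℕ) => mem_pow_iff w hw (hunr) x n
  rw [hmem, ← hk] at s1 s2 s3
  rw [hmem, hmem, ← hk, ← hk] at s4
  have h20k : (2 : k) ≠ 0 := by
    intro h0
    apply h20
    rw [← map_ofNat (algebraMap k (w.adicCompletion L)) 2, h0, map_zero]
  -- powers of two
  have p2 : ∀ n : ℕ, Valued.v (algebraMap k (w.adicCompletion L) (2 ^ n)) = exp (-(n : ℤ)) := by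
    intro n
    rw [map_pow, map_ofNat, KNq_two e2]
  have hdiv : ∀ (x : k) (n m : ℕ), Valued.v (algebraMap k (w.adicCompletion L) (x / 2 ^ n)) ≤
      exp (-(m : ℤ)) ↔ Valued.v (algebraMap k (w.adicCompletion L) x) ≤ exp (-((n + m : ℕ) : ℤ)) := by
    intro x n m
    have hx : x = (x / 2 ^ n) * 2 ^ n := by
      rw [div_mul_cancel₀ _ (pow_ne_zero n h20k)]
    conv_rhs => rw [hx]
    rw [map_mul (algebraMap k (w.adicCompletion L)), map_mul Valued.v, p2]
    have e1 : (exp (-((n + m : ℕ) : ℤ)) : WithZero (Multiplicative ℤ)) =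
        exp (-(m : ℤ)) * exp (-(n : ℤ)) := by
      rw [← exp_add]
      congr 1
      push_cast
      ring
    rw [e1]
    exact (mul_le_mul_iff_left₀ (zero_lt_iff.2 exp_ne_zero)).symm
  obtain ⟨A, hA⟩ : ∃ A : k, A = (a : k) / 2 ^ (2 * i) := ⟨_, rfl⟩
  obtain ⟨B, hB⟩ : ∃ B : k, B = (b : k) / 2 ^ (4 * i) := ⟨_, rfl⟩
  have hA2 : (a : k) = (2 ^ i) ^ 2 * A := by
    rw [hA]
    field_simp
    ring
  have hB2 : (b : k) = (2 ^ i) ^ 4 * B := by
    rw [hB]
    field_simp
    ring
  have tA : Valued.v (algebraMap k (w.adicCompletion L) A) ≤ exp (-((1 : ℕ) : ℤ)) := by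
    rw [hA, hdiv]
    exact s1
  have tB : Valued.v (algebraMap k (w.adicCompletion L) (A ^ 2 - 4 * B)) ≤ exp (-4 : ℤ) := by
    have e1 : A ^ 2 - 4 * B = ((a ^ 2 - 4 * b : 𝓞 k) : k) / 2 ^ (4 * i) := by
      have e0 : ((a ^ 2 - 4 * b : 𝓞 k) : k) = (a : k) ^ 2 - 4 * (b : k) := by
        change algebraMap (𝓞 k) k (a ^ 2 - 4 * b) = algebraMap (𝓞 k) k a ^ 2 - 4 * algebraMap (𝓞 k) k b
        rw [map_sub, map_pow, map_mul, map_ofNat]
      rw [e0, hA2, hB2]
      field_simp
      ring
    rw [e1]
    exact (hdiv _ _ 4).2 s3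
  -- the point
  have L1 := Hf
  have L2 : QPt (algebraMap k (w.adicCompletion L) A) (algebraMap k (w.adicCompletion L) B)
      (algebraMap L (w.adicCompletion L) d) := by
    rw [← QPt.scale (r := (2 : w.adicCompletion L) ^ i) (pow_ne_zero i h20)]
    have e5 : ((2 : w.adicCompletion L) ^ i) ^ 2 * algebraMap k (w.adicCompletion L) A =
        algebraMap L (w.adicCompletion L) (algebraMap k L (a : k)) := by
      change _ = algebraMap k (w.adicCompletion L) (a : k)
      rw [hA2, map_mul, map_pow, map_pow, map_ofNat]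
    have e6 : ((2 : w.adicCompletion L) ^ i) ^ 4 * algebraMap k (w.adicCompletion L) B =
        algebraMap L (w.adicCompletion L) (algebraMap k L (b : k)) := by
      change _ = algebraMap k (w.adicCompletion L) (b : k)
      rw [hB2, map_mul, map_pow, map_pow, map_ofNat]
    rw [e5, e6]
    exact L1
  by_cases hc : Valued.v (algebraMap k (w.adicCompletion L) A) ≤ exp (-2 : ℤ)
  · refine kapK_b e2 hP hc tB ?_ hd' hev' L2
    intro hB4
    apply s4
    constructor
    · have h5 := (hdiv (a : k) (2 * i) 2).1 (by rw [← hA]; exact hc)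
      exact h5
    · have h5 := (hdiv (b : k) (4 * i) 4).1 (by rw [← hB]; exact hB4)
      exact h5
  · refine kapK_a e2 hP ?_ tB hd' L2
    apply le_antisymm
    · exact tA
    · rw [not_le] at hc
      have h0 : Valued.v (algebraMap k (w.adicCompletion L) A) ≠ 0 := fun h0 => by
        rw [h0] at hc
        exact absurd hc (by simp)
      rw [← exp_log h0, exp_lt_exp] at hc
      rw [← exp_log h0, exp_le_exp]
      omega


end H68I2
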