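import Pool.Agent.H68.I2.Df

/-!
# MP_78d38b I2, row Kb: units modulo four above two (about 70 lines)

`w` is a prime of `L` above `2`, unramified (`2 ∉ w²`, so `w.valuation L 2 = exp (-1)`:
`H73IS.val_two_of_unram hw hunr`), `d ≠ 0` has even valuation at `w`.  Then up to squares
`d = 1 + 2 y` modulo four with `y : 𝓞 L`.

PROOF. Let `log (w.valuation L d) = n + n` (`hev`).  `s := 2 ^ n` (integer power; `w.valuation L s =
exp (-n)`, `map_zpow₀`), so `d * s ^ 2` has valuation `exp (2 n - 2 n) = 1`.  By `H73IS.perf w hw (d * s ^ 2)`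
(a square root modulo `w`; statement in `H73/IS/KVal.lean`, used with `k := L`) there is `z : L` with
`w.valuation L (d * s ^ 2 - z ^ 2) < 1`; so `w.valuation L z = 1` (`w.valuation L (z^2) = 1` because
the difference is smaller: `Valuation.map_sub_eq_of_lt_left` etc.), `z ≠ 0`.  `t := s / z`:
`d * t ^ 2 - 1 = (d * s ^ 2 - z ^ 2) / z ^ 2` has valuation `< 1`, hence `≤ exp (-1) = w.valuation L 2`
(values of `WithZero (Multiplicative ℤ)`: `< 1` iff `≤ exp (-1)`, by `exp_log`, `exp_lt_exp`, `omega`;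
cf. `H68I2.kap_at` or `H73/IS/KSq.lean`).  Then `(d * t ^ 2 - 1) / 2` has valuation `≤ 1`, and
`H73IS.int_close w _ _` gives `y : 𝓞 L` with `w.valuation L ((d * t ^ 2 - 1) / 2 - y) < 1`, so `≤ exp (-1)`.
Multiply by `2`: `w.valuation L (d * t ^ 2 - 1 - 2 y) ≤ exp (-1) * exp (-1) = w.valuation L 4`.
-/

set_option autoImplicit false
open scoped Classical

open WeierstrassCurve IsDedekindDomain NumberField WithZero Pool.Agent.H10 H73IS

namespace H68I2

variable {L : Type} [Field L] [NumberField L]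

private theorem Kb_lt {x : WithZero (Multiplicative ℤ)} (h : x < 1) : x ≤ exp (-1 : ℤ) := by
  by_cases h0 : x = 0
  · rw [h0]
    exact zero_le
  · rw [← exp_log h0, ← exp_zero, exp_lt_exp] at h
    rw [← exp_log h0, exp_le_exp]
    omega

theorem unit_form (w : HeightOneSpectrum (𝓞 L)) (hw : (2 : 𝓞 L) ∈ w.asIdeal)
    (hunr : (2 : 𝓞 L) ∉ w.asIdeal ^ 2) {d : L} (hd : d ≠ 0)
    (hev : Even (log (w.valuation L d))) :
    ∃ (t : L) (y : 𝓞 L), t ≠ 0 ∧
      w.valuation L (d * t ^ 2 - (1 + 2 * algebraMap (𝓞 L) L y)) ≤ w.valuation L 4 := by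
  have hv2 : w.valuation L (2 : L) = exp (-1 : ℤ) := val_two_of_unram hw hunr
  have hd0 : w.valuation L d ≠ 0 := (Valuation.ne_zero_iff _).mpr hd
  obtain ⟨n, hn⟩ := hev
  have hs : w.valuation L ((2 : L) ^ n) = exp (-n) := by
    rw [map_zpow₀, hv2, ← exp_zsmul, smul_eq_mul]
    congr 1
    ring
  have hs0 : (2 : L) ^ n ≠ 0 := zpow_ne_zero _ two_ne_zero
  have hds : w.valuation L (d * ((2 : L) ^ n) ^ 2) = 1 := by
    rw [map_mul, map_pow, hs, ← exp_log hd0, hn, ← exp_nsmul, ← exp_add, ← exp_zero]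
    congr 1
    rw [nsmul_eq_mul]
    push_cast
    ring
  obtain ⟨z, hz⟩ := perf w hw (d * ((2 : L) ^ n) ^ 2) hds.le
  have hz2 : w.valuation L (z ^ 2) = 1 := by
    rw [← hds]
    apply Valuation.map_eq_of_sub_lt
    rw [Valuation.map_sub_swap, hds]
    exact hz
  have hz0 : z ≠ 0 := by
    rintro rfl
    rw [zero_pow two_ne_zero, map_zero] at hz2
    exact zero_ne_one hz2
  have e1 : d * ((2 : L) ^ n / z) ^ 2 - 1 = (d * ((2 : L) ^ n) ^ 2 - z ^ 2) / z ^ 2 := by
    field_simp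
  have h1 : w.valuation L (d * ((2 : L) ^ n / z) ^ 2 - 1) ≤ exp (-1 : ℤ) := by
    apply Kb_lt
    rw [e1, map_div₀, hz2, div_one]
    exact hz
  have h2 : w.valuation L ((d * ((2 : L) ^ n / z) ^ 2 - 1) / 2) ≤ 1 := by
    rw [map_div₀, hv2]
    apply (div_le_one₀ _).2 h1
    exact exp_pos
  obtain ⟨y, hy⟩ := int_close w _ h2
  refine ⟨(2 : L) ^ n / z, y, div_ne_zero hs0 hz0, ?_⟩
  have h3 := Kb_lt hy
  have e2 : d * ((2 : L) ^ n / z) ^ 2 - (1 + 2 * algebraMap (𝓞 L) L y) =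
      2 * ((d * ((2 : L) ^ n / z) ^ 2 - 1) / 2 - (y : L)) := by
    have e3 : algebraMap (𝓞 L) L y = (y : L) := rfl
    rw [e3]
    ring
  have e4 : (4 : L) = 2 * 2 := by norm_num
  rw [e2, e4, map_mul, map_mul]
  rw [← hv2] at h3
  exact mul_le_mul_right h3 _

end H68I2
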