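import Pool.Agent.H68.I2.Df

/-!
# MP_78d38b I2, row Kc: squares modulo four (about 70 lines; only valuations)

`SqModFour V x` (`H10/SemiTwo.lean`): `∃ t m, t ≠ 0 ∧ V m = 1 ∧ V (x * t ^ 2 - m ^ 2) ≤ V 4`.

PROOF.
* `sq4_mul`: `x t² = m² + e`, `y s² = n² + f` with `V e, V f ≤ V 4 ≤ 1`.  `x y (t s)² - (m n)² =
  e n² + m² f + e f`, every term `≤ V 4` (`V 4 ≤ 1`: `V 4 = V 2 * V 2` or hypothesis `h4`).
* `sq4_conj`: apply `σ`: `σ x * (σ t)² - (σ m)² = σ (x t² - m²)`.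
* `sq4_of_form`: with `m = 1` and the factor `t s`: `d t² = 1 + 2 y + p`, `e s² = 1 + 2 z + q`,
  `V p, V q ≤ V 4`; `d e (t s)² - 1 = 4 y + 2 (z - y) + 4 y z + p (1 + 2 z) + q (1 + 2 y) + p q`;
  `V (z - y) < 1` gives `V (z - y) ≤ exp (-1) = V 2` (values are `0` or `exp n`), so
  `V (2 (z - y)) ≤ V 2 * V 2 = V 4`.
-/

set_option autoImplicit false
open scoped Classical

open WeierstrassCurve IsDedekindDomain NumberField WithZero Pool.Agent.H10 H73IS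

namespace H68I2

theorem sq4_mul {F : Type*} [Field F] {V : Valuation F (WithZero (Multiplicative ℤ))} {x y : F}
    (h4 : V 4 ≤ 1) (hx : SqModFour V x) (hy : SqModFour V y) : SqModFour V (x * y) := by
  obtain ⟨t, m, ht, hm, hx⟩ := hx
  obtain ⟨s, n, hs, hn, hy⟩ := hy
  refine ⟨t * s, m * n, mul_ne_zero ht hs, by rw [map_mul, hm, hn, mul_one], ?_⟩
  have e : x * y * (t * s) ^ 2 - (m * n) ^ 2 = (x * t ^ 2 - m ^ 2) * n ^ 2 +
      (m ^ 2 * (y * s ^ 2 - n ^ 2) + (x * t ^ 2 - m ^ 2) * (y * s ^ 2 - n ^ 2)) := by ring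
  rw [e]
  refine V.map_add_le ?_ (V.map_add_le ?_ ?_)
  · rw [map_mul, map_pow, hn, one_pow, mul_one]
    exact hx
  · rw [map_mul, map_pow, hm, one_pow, one_mul]
    exact hy
  · rw [map_mul]
    calc V (x * t ^ 2 - m ^ 2) * V (y * s ^ 2 - n ^ 2) ≤ V 4 * 1 :=
          mul_le_mul' hx (hy.trans h4)
      _ = V 4 := mul_one _

theorem sq4_conj {K L : Type*} [Field K] [Field L] [Algebra K L]
    {V : Valuation L (WithZero (Multiplicative ℤ))} {σ : L ≃ₐ[K] L}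
    (hσ : ∀ x, V (σ x) = V x) {x : L} (h : SqModFour V x) : SqModFour V (σ x) := by
  obtain ⟨t, m, ht, hm, hx⟩ := h
  refine ⟨σ t, σ m, (map_ne_zero _).2 ht, by rw [hσ, hm], ?_⟩
  rw [← map_pow, ← map_pow, ← map_mul, ← map_sub, hσ]
  exact hx

theorem sq4_of_form {F : Type*} [Field F] {V : Valuation F (WithZero (Multiplicative ℤ))}
    (h2 : V 2 = exp (-1 : ℤ)) {d e t s y z : F} (ht : t ≠ 0) (hs : s ≠ 0) (hy : V y ≤ 1)
    (hz : V z ≤ 1) (hyz : V (y - z) < 1) (hd : V (d * t ^ 2 - (1 + 2 * y)) ≤ V 4)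
    (he : V (e * s ^ 2 - (1 + 2 * z)) ≤ V 4) : SqModFour V (d * e) := by
  have h2' : V 2 ≤ 1 := by
    rw [h2, ← WithZero.exp_zero]
    exact WithZero.exp_le_exp.2 (by norm_num)
  have h4e : V 4 = V 2 * V 2 := by
    rw [← map_mul]
    norm_num
  have h4 : V 4 ≤ 1 := by
    rw [h4e]
    exact mul_le_one' h2' h2'
  have hzy : V (z - y) ≤ V 2 := by
    rw [Valuation.map_sub_swap, h2]
    by_cases h0 : V (y - z) = 0
    · rw [h0]
      exact zero_le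
    · rw [← WithZero.exp_log h0] at hyz ⊢
      rw [← WithZero.exp_zero, WithZero.exp_lt_exp] at hyz
      rw [WithZero.exp_le_exp]
      omega
  have hu : ∀ {a b : F}, V a ≤ V 4 → V b ≤ 1 → V (a * b) ≤ V 4 := by
    intro a b ha hb
    rw [map_mul]
    calc V a * V b ≤ V 4 * 1 := mul_le_mul' ha hb
      _ = V 4 := mul_one _
  have h12 : ∀ {a : F}, V a ≤ 1 → V (1 + 2 * a) ≤ 1 := by
    intro a ha
    refine V.map_add_le (by rw [map_one]) ?_
    rw [map_mul]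
    exact mul_le_one' h2' ha
  refine ⟨t * s, 1, mul_ne_zero ht hs, map_one _, ?_⟩
  have e1 : d * e * (t * s) ^ 2 - 1 ^ 2 = 4 * y + (2 * (z - y) + (4 * (y * z) +
      ((d * t ^ 2 - (1 + 2 * y)) * (1 + 2 * z) + ((e * s ^ 2 - (1 + 2 * z)) * (1 + 2 * y) +
      (d * t ^ 2 - (1 + 2 * y)) * (e * s ^ 2 - (1 + 2 * z)))))) := by ring
  rw [e1]
  refine V.map_add_le (hu le_rfl hy) (V.map_add_le ?_ (V.map_add_le ?_ (V.map_add_le
    (hu hd (h12 hz)) (V.map_add_le (hu he (h12 hy)) (hu hd (he.trans h4))))))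
  · rw [map_mul, h4e]
    exact mul_le_mul' le_rfl hzy
  · exact hu le_rfl (by rw [map_mul]; exact mul_le_one' hy hz)

end H68I2
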