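import Pool.Agent.H68.I2.Kb
import Pool.Agent.H68.I2.Kc

/-!
# MP_78d38b I2, row Kd: among many new elements two differ by a square (about 150 lines)

Family version of `H73IS.sq_of_kapK` (`H73/IS/KSq.lean`), which must be read first.

PROOF.
* `conj_sq4`: copy the middle part of the proof of `sq_of_kapK` (from `intro w hw` after `R2`,
  `hu := huniq w hw` to the end of the block `prodsq`): `kapK_conj` with `val_conj_of_unique` and,
  in the second case of `h3`, `CubIn` (lemma `KSq_cub` there).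
* `sq_of_conj`: copy the beginning and the end of `sq_of_kapK`: for every `σ`, `c * σ c` is a square by
  `R2` (even valuations: `(ev w).add (even_conj σ ev w)`; norm: `norm (σ c) = norm c`; the third condition
  of `NoNewUnramified` is `SqModFour (w.valuation L) (c * σ c)`, definitionally), then
  the product over all `σ` is `c ^ [L : K] * norm c`, so `c` is a square.
* `fam_of_kap`: for `i : ι` and `w ∈ SL` choose `t`, `y i w : 𝓞 L` by `unit_form` (`choose`).
  The map `i ↦ (w ↦ class of y i w in 𝓞 L ⧸ w.asIdeal)`, from `ι` to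
  `∀ w : SL, 𝓞 L ⧸ (w : HeightOneSpectrum (𝓞 L)).asIdeal`, is not injective: the target is finite
  (`Ideal.absNorm_apply`, `Submodule.cardQuot_apply`; finite quotients: instance or
  `Ideal.finiteQuotientOfFreeOfNeBot`) of cardinality `∏ w ∈ SL, absNorm w.asIdeal`
  (`Nat.card_pi`/`Fintype.card_pi`, `Finset.prod_coe_sort`), `Fintype.exists_ne_map_eq_of_card_lt` or
  `Nat.card_le_card_of_injective`.  So `i ≠ j` with `y i w - y j w ∈ w.asIdeal` for all `w ∈ SL`
  (`Ideal.Quotient.eq`), i.e. `w.valuation L (y i w - y j w) < 1` (`valuation_lt_one_iff_mem`).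
  `c := d i * d j`: `c ≠ 0`, even valuations (sum of two even), norm a square (product).  For `σ` and `w ∣ 2`:
  `w ∈ SL`: `SqModFour c` by `sq4_of_form` (`h2 := val_two_of_unram ..`), and `SqModFour (c * σ c)` by `sq4_conj`
  (`val_conj_of_unique`) and `sq4_mul`; `w ∉ SL`: `c * σ c = (d i * σ (d i)) * (d j * σ (d j))`, `conj_sq4` twice
  and `sq4_mul`.  Then `sq_of_conj`.
-/

set_option autoImplicit false
open scoped Classical

open WeierstrassCurve IsDedekindDomain NumberField WithZero Pool.Agent.H10 H73IS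

namespace H68I2

theorem Kd_uniq {K L : Type} [Field K] [NumberField K] [Field L]
    [NumberField L] [Algebra K L]
    (hbad : ∀ v : HeightOneSpectrum (𝓞 K), (2 : 𝓞 K) ∈ v.asIdeal → UniqueOver K L v.asIdeal)
    (w : HeightOneSpectrum (𝓞 L)) (hw : (2 : 𝓞 L) ∈ w.asIdeal) :
    UniqueOver K L (w.asIdeal.under (𝓞 K)) := by
  have bne : w.asIdeal.under (𝓞 K) ≠ ⊥ := Ideal.IsIntegral.comap_ne_bot _ w.ne_bot
  have mem_iff : (2 : 𝓞 K) ∈ w.asIdeal.under (𝓞 K) ↔ (2 : 𝓞 L) ∈ w.asIdeal := by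
    change algebraMap (𝓞 K) (𝓞 L) (2 : 𝓞 K) ∈ w.asIdeal ↔ _
    rw [map_ofNat]
  exact hbad ⟨w.asIdeal.under (𝓞 K), inferInstance, bne⟩ (mem_iff.mpr hw)

theorem conj_sq4 {k K L : Type} [Field k] [NumberField k] [Field K] [NumberField K] [Field L]
    [NumberField L] [Algebra k K] [Algebra K L] [Algebra k L] [IsScalarTower k K L]
    [IsGalois K L] (hodd : Odd (Module.finrank K L))
    (hbad : ∀ v : HeightOneSpectrum (𝓞 K), (2 : 𝓞 K) ∈ v.asIdeal → UniqueOver K L v.asIdeal)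
    (hunr : ∀ w : HeightOneSpectrum (𝓞 L), (2 : 𝓞 L) ∈ w.asIdeal →
      (2 : 𝓞 L) ∉ w.asIdeal ^ 2)
    (h3 : ¬ 3 ∣ Module.finrank K L ∨ CubIn k K L)
    {d : L} (w : HeightOneSpectrum (𝓞 L)) (hw : (2 : 𝓞 L) ∈ w.asIdeal)
    (kap : KapK k (w.valuation L) d) (σ : L ≃ₐ[K] L) :
    SqModFour (w.valuation L) (d * σ d) := by
  have hu := Kd_uniq hbad w hw
  have hcardG : Nat.card (L ≃ₐ[K] L) = Module.finrank K L := IsGalois.card_aut_eq_finrank K L
  have hord : orderOf σ ∣ Module.finrank K L := by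
    rw [← hcardG]
    exact orderOf_dvd_natCard σ
  have hv2 := val_two_of_unram hw (hunr w hw)
  have hσ : ∀ x, w.valuation L (σ x) = w.valuation L x := val_conj_of_unique σ w hu
  refine kapK_conj hv2 hσ (Odd.of_dvd_nat hodd hord) ?_ kap
  rcases h3 with h3 | h3
  · left
    rw [Nat.coprime_comm, Nat.coprime_comm]
    exact (Nat.Prime.coprime_iff_not_dvd Nat.prime_three).mpr fun h => h3 (h.trans hord)
  · right
    intro c₂ c₁ c₀ y hy hc₂ hc₁ hc₀ hlt
    have hun := hunr w hw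
    obtain ⟨y', hy'⟩ := int_close w y hy
    have cl : ∀ c : k, w.valuation L (algebraMap k L c) ≤ 1 →
        ∃ c' : 𝓞 k, w.valuation L (algebraMap k L c -
          algebraMap (𝓞 L) L (algebraMap (𝓞 k) (𝓞 L) c')) < 1 := by
      intro c hc
      rw [val_eq w hw hun] at hc
      obtain ⟨c', hc'⟩ := int_close (below k w) c hc
      refine ⟨c', ?_⟩
      rw [← val_eq w hw hun, map_sub] at hc'
      have e7 : algebraMap k L ((algebraMap (𝓞 k) k) c') =
          algebraMap (𝓞 L) L (algebraMap (𝓞 k) (𝓞 L) c') := by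
        rw [← IsScalarTower.algebraMap_apply (𝓞 k) k L,
          ← IsScalarTower.algebraMap_apply (𝓞 k) (𝓞 L) L]
      rw [← e7]
      exact hc'
    obtain ⟨d₂, hd₂⟩ := cl c₂ hc₂
    obtain ⟨d₁, hd₁⟩ := cl c₁ hc₁
    obtain ⟨d₀, hd₀⟩ := cl c₀ hc₀
    have hlt' := KSq_cub hy (w.valuation_le_one y') (w.valuation_le_one _)
      (w.valuation_le_one _) hy' hd₂ hd₁ hd₀ hlt
    have e9 : algebraMap (𝓞 L) L y' ^ 3 +
        algebraMap (𝓞 L) L (algebraMap (𝓞 k) (𝓞 L) d₂) * algebraMap (𝓞 L) L y' ^ 2 +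
        algebraMap (𝓞 L) L (algebraMap (𝓞 k) (𝓞 L) d₁) * algebraMap (𝓞 L) L y' +
        algebraMap (𝓞 L) L (algebraMap (𝓞 k) (𝓞 L) d₀) =
        algebraMap (𝓞 L) L (y' ^ 3 + algebraMap (𝓞 k) (𝓞 L) d₂ * y' ^ 2 +
          algebraMap (𝓞 k) (𝓞 L) d₁ * y' + algebraMap (𝓞 k) (𝓞 L) d₀) := by
      simp only [map_add, map_pow, map_mul]
    rw [e9] at hlt'
    obtain ⟨c, hc⟩ := h3 w hw d₂ d₁ d₀ y' ((w.valuation_lt_one_iff_mem _).mp hlt')
    have hc1 := (w.valuation_lt_one_iff_mem (K := L) _).mpr hc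
    refine ⟨algebraMap (𝓞 K) K c, ?_⟩
    have e7 : algebraMap K L ((algebraMap (𝓞 K) K) c) =
        algebraMap (𝓞 L) L (algebraMap (𝓞 K) (𝓞 L) c) := by
      rw [← IsScalarTower.algebraMap_apply (𝓞 K) K L,
        ← IsScalarTower.algebraMap_apply (𝓞 K) (𝓞 L) L]
    rw [e7]
    have hs := KSq_add hy' hc1
    have e10 : y - algebraMap (𝓞 L) L y' +
        algebraMap (𝓞 L) L (y' - algebraMap (𝓞 K) (𝓞 L) c) =
        y - algebraMap (𝓞 L) L (algebraMap (𝓞 K) (𝓞 L) c) := by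
      rw [map_sub]
      ring
    exact e10 ▸ hs

theorem sq_of_conj {K L : Type} [Field K] [NumberField K] [Field L]
    [NumberField L] [Algebra K L] [IsGalois K L] (hodd : Odd (Module.finrank K L))
    (R2 : NoNewUnramified K L) {c : L} (hc : c ≠ 0)
    (ev : ∀ w : HeightOneSpectrum (𝓞 L), Even (log (w.valuation L c)))
    (N : IsSquare (Algebra.norm K c))
    (h4 : ∀ (σ : L ≃ₐ[K] L) (w : HeightOneSpectrum (𝓞 L)), (2 : 𝓞 L) ∈ w.asIdeal →
      SqModFour (w.valuation L) (c * σ c)) : IsSquare c := by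
  have hcardG : Nat.card (L ≃ₐ[K] L) = Module.finrank K L := IsGalois.card_aut_eq_finrank K L
  have prodsq : ∀ σ : L ≃ₐ[K] L, IsSquare (c * σ c) := by
    intro σ
    have hσ0 : σ c ≠ 0 := by
      intro h0
      apply hc
      rw [← σ.symm_apply_apply c, h0, map_zero]
    apply R2 _ (mul_ne_zero hc hσ0)
    · intro w
      rw [map_mul, log_mul ((Valuation.ne_zero_iff _).mpr hc) ((Valuation.ne_zero_iff _).mpr hσ0)]
      exact (ev w).add (even_conj σ ev w)
    · rw [map_mul, Algebra.norm_eq_of_algEquiv σ c]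
      exact ⟨_, rfl⟩
    · intro w hw
      exact h4 σ w hw
  have h5 : IsSquare (∏ σ : L ≃ₐ[K] L, (c * σ c)) :=
    Finset.isSquare_prod _ fun σ _ => prodsq σ
  rw [Finset.prod_mul_distrib, Finset.prod_const, ← Algebra.norm_eq_prod_automorphisms,
    Finset.card_univ, ← Nat.card_eq_fintype_card, hcardG] at h5
  obtain ⟨q, hq⟩ := N
  obtain ⟨r, hr⟩ := h5
  obtain ⟨kk, hk⟩ := hodd
  have hq0 : algebraMap K L q ≠ 0 := by
    intro h0
    have : algebraMap K L (Algebra.norm K c) = 0 := by rw [hq, map_mul, h0, mul_zero]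
    rw [map_eq_zero, Algebra.norm_eq_zero_iff] at this
    exact hc this
  rw [hq, map_mul, hk] at hr
  refine ⟨r / (algebraMap K L q * c ^ kk), ?_⟩
  have hk0 : c ^ kk ≠ 0 := pow_ne_zero kk hc
  field_simp
  rw [pow_two r, ← hr]
  ring

theorem fam_of_kap {k K L : Type} [Field k] [NumberField k] [Field K] [NumberField K] [Field L]
    [NumberField L] [Algebra k K] [Algebra K L] [Algebra k L] [IsScalarTower k K L]
    [IsGalois K L] (hodd : Odd (Module.finrank K L)) (R2 : NoNewUnramified K L)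
    (hbad : ∀ v : HeightOneSpectrum (𝓞 K), (2 : 𝓞 K) ∈ v.asIdeal → UniqueOver K L v.asIdeal)
    (hunr : ∀ w : HeightOneSpectrum (𝓞 L), (2 : 𝓞 L) ∈ w.asIdeal →
      (2 : 𝓞 L) ∉ w.asIdeal ^ 2)
    (h3 : ¬ 3 ∣ Module.finrank K L ∨ CubIn k K L)
    {SL : Finset (HeightOneSpectrum (𝓞 L))} (hSL : ∀ w ∈ SL, (2 : 𝓞 L) ∈ w.asIdeal)
    {ι : Type} [Fintype ι] (hι : ∏ w ∈ SL, Ideal.absNorm w.asIdeal < Fintype.card ι)
    (d : ι → L) (hd : ∀ i, d i ≠ 0)
    (ev : ∀ i, ∀ w : HeightOneSpectrum (𝓞 L), Even (log (w.valuation L (d i))))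
    (N : ∀ i, IsSquare (Algebra.norm K (d i)))
    (kap : ∀ i, ∀ w : HeightOneSpectrum (𝓞 L), (2 : 𝓞 L) ∈ w.asIdeal → w ∉ SL →
      KapK k (w.valuation L) (d i)) : ∃ i j, i ≠ j ∧ IsSquare (d i * d j) := by
  have hform : ∀ (i : ι) (w : HeightOneSpectrum (𝓞 L)), (2 : 𝓞 L) ∈ w.asIdeal →
      ∃ (t : L) (y : 𝓞 L), t ≠ 0 ∧
        w.valuation L (d i * t ^ 2 - (1 + 2 * algebraMap (𝓞 L) L y)) ≤ w.valuation L 4 :=
    fun i w hw => unit_form w hw (hunr w hw) (hd i) (ev i w)
  choose t y ht hy using hform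
  obtain ⟨F, hF⟩ : ∃ F : ι → ∀ w : SL, 𝓞 L ⧸ (w : HeightOneSpectrum (𝓞 L)).asIdeal,
      F = fun i w => Ideal.Quotient.mk _ (y i w.1 (hSL w.1 w.2)) := ⟨_, rfl⟩
  have hfin : ∀ w : SL, Finite (𝓞 L ⧸ (w : HeightOneSpectrum (𝓞 L)).asIdeal) := fun w =>
    Ideal.finiteQuotientOfFreeOfNeBot _ (w : HeightOneSpectrum (𝓞 L)).ne_bot
  have hni : ¬ Function.Injective F := by
    intro hinj
    have h1 := Nat.card_le_card_of_injective F hinj
    rw [Nat.card_pi, Nat.card_eq_fintype_card] at h1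
    have h2 : ∏ w : SL, Nat.card (𝓞 L ⧸ (w : HeightOneSpectrum (𝓞 L)).asIdeal) =
        ∏ w ∈ SL, Ideal.absNorm w.asIdeal := by
      rw [← Finset.prod_coe_sort SL (fun w => Ideal.absNorm w.asIdeal)]
      refine Finset.prod_congr rfl fun w _ => ?_
      rw [Ideal.absNorm_apply, Submodule.cardQuot_apply]
    rw [h2] at h1
    omega
  rw [Function.not_injective_iff] at hni
  obtain ⟨i, j, hij, hne⟩ := hni
  have h4le : ∀ w : HeightOneSpectrum (𝓞 L), w.valuation L 4 ≤ 1 := by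
    intro w
    have h : w.valuation L (algebraMap (𝓞 L) L 4) ≤ 1 := w.valuation_le_one 4
    rwa [map_ofNat] at h
  refine ⟨i, j, hne, sq_of_conj hodd R2 (mul_ne_zero (hd i) (hd j)) ?_ ?_ ?_⟩
  · intro w
    rw [map_mul, log_mul ((Valuation.ne_zero_iff _).mpr (hd i))
      ((Valuation.ne_zero_iff _).mpr (hd j))]
    exact (ev i w).add (ev j w)
  · rw [map_mul]
    exact (N i).mul (N j)
  · intro σ w hw
    by_cases hSw : w ∈ SL
    · have hval : w.valuation L (algebraMap (𝓞 L) L (y i w (hSL w hSw)) -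
          algebraMap (𝓞 L) L (y j w (hSL w hSw))) < 1 := by
        rw [← map_sub]
        refine (w.valuation_lt_one_iff_mem _).mpr ?_
        have h1 := congrFun hij ⟨w, hSw⟩
        rw [hF] at h1
        exact Ideal.Quotient.eq.mp h1
      have hc : SqModFour (w.valuation L) (d i * d j) :=
        sq4_of_form (val_two_of_unram hw (hunr w hw)) (ht i w (hSL w hSw)) (ht j w (hSL w hSw))
          (w.valuation_le_one _) (w.valuation_le_one _) hval (hy i w (hSL w hSw))
          (hy j w (hSL w hSw))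
      exact sq4_mul (h4le w) hc (sq4_conj (fun x => val_conj_of_unique σ w
        (Kd_uniq hbad w hw) x) hc)
    · have ha := conj_sq4 hodd hbad hunr h3 w hw (kap i w hw hSw) σ
      have hb := conj_sq4 hodd hbad hunr h3 w hw (kap j w hw hSw) σ
      have hc := sq4_mul (h4le w) ha hb
      have he : d i * σ (d i) * (d j * σ (d j)) = d i * d j * σ (d i * d j) := by
        rw [map_mul]
        ring
      rwa [he] at hc

end H68I2
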