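import Pool.Agent.H68.I2.Kd
import Pool.Agent.H68.I2.Ka

/-!
# MP_78d38b I2, row Ke: the family bound for the classes on the curve (about 70 lines)

Family version of `H73IS.nqK_small` (`H73/IS/KNq.lean`, first 20 lines of its proof are the model).

PROOF. `intro ι _ hι d hd Hf Hi N`.  `hbb`, `hb2` as in `nqK_small` (the primes dividing `b`, respectively
`2`, divide `2 b`).  `evK hodd hbb (hd i) (Hf i) (N i)` gives even valuations of `d i`.  Apply
`fam_of_kap (k := k) hodd R2 hb2 hunr h3 (SL := SL) (fun w hw => ((hSL w).1 hw).1) hι d hd ev N`;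
for `w ∣ 2`, `w ∉ SL`: `SmallAt (below k w) a b` (by `hSL`), and `kap_at (hd i) w hw (hunr w hw) (ev i w) hS
(Hf i w)` (row Ka; `FinQ` at `w` is the hypothesis `Hf` of `kap_at`, up to defeq of coercions).
-/

set_option autoImplicit false
open scoped Classical

open WeierstrassCurve IsDedekindDomain NumberField WithZero Pool.Agent.H10 H73IS

namespace H68I2

theorem famK {k K L : Type} [Field k] [NumberField k] [Field K] [NumberField K] [Field L]
    [NumberField L] [Algebra k K] [Algebra K L] [Algebra k L] [IsScalarTower k K L]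
    [IsGalois K L] (hodd : Odd (Module.finrank K L)) (R2 : NoNewUnramified K L)
    {a b : 𝓞 k} {SL : Finset (HeightOneSpectrum (𝓞 L))}
    (hSL : ∀ w : HeightOneSpectrum (𝓞 L),
      w ∈ SL ↔ (2 : 𝓞 L) ∈ w.asIdeal ∧ ¬ SmallAt (below k w) a b)
    (hbad : ∀ v : HeightOneSpectrum (𝓞 K), algebraMap (𝓞 k) (𝓞 K) (2 * b) ∈ v.asIdeal →
      UniqueOver K L v.asIdeal)
    (hunr : ∀ w : HeightOneSpectrum (𝓞 L), (2 : 𝓞 L) ∈ w.asIdeal →
      (2 : 𝓞 L) ∉ w.asIdeal ^ 2)
    (h3 : ¬ 3 ∣ Module.finrank K L ∨ CubIn k K L) :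
    NewFamQ K L (algebraMap k L a) (algebraMap k L b) (∏ w ∈ SL, Ideal.absNorm w.asIdeal) := by
  intro ι _ hι d hd Hf Hi N
  have hbb : ∀ v : HeightOneSpectrum (𝓞 K), algebraMap (𝓞 k) (𝓞 K) b ∈ v.asIdeal →
      UniqueOver K L v.asIdeal := by
    intro v hv
    refine hbad v ?_
    rw [map_mul]
    exact Ideal.mul_mem_left _ _ hv
  have hb2 : ∀ v : HeightOneSpectrum (𝓞 K), (2 : 𝓞 K) ∈ v.asIdeal →
      UniqueOver K L v.asIdeal := by
    intro v hv
    refine hbad v ?_
    rw [map_mul, map_ofNat]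
    exact Ideal.mul_mem_right _ _ hv
  have ev : ∀ i, ∀ w : HeightOneSpectrum (𝓞 L), Even (log (w.valuation L (d i))) :=
    fun i => evK hodd hbb (hd i) (Hf i) (N i)
  refine fam_of_kap (k := k) hodd R2 hb2 hunr h3 (SL := SL) (fun w hw => ((hSL w).1 hw).1) hι d hd
    ev N ?_
  intro i w hw hwS
  have hS : SmallAt (below k w) a b := by
    by_contra hcon
    exact hwS ((hSL w).2 ⟨hw, hcon⟩)
  exact kap_at (hd i) w hw (hunr w hw) (ev i w) hS (Hf i w)

end H68I2
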