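import Pool.Agent.H68.I2.Df

/-!
# MP_78d38b I2, row Sm: the dual of a small pair is not small (about 60 lines)

`SmallAt v a b` (`H73/IS/KDf2.lean`).  `v ∣ 2`, `2 ∉ v²`.

PROOF. Let `i` be the index of `SmallAt v a b`: `a ∈ v^(2i+1)`, `b ∈ v^(4i)`, `a² - 4b ∈ v^(4i+4)`, not
(`a ∈ v^(2i+2)` and `b ∈ v^(4i+4)`).  Claim: `b ∉ v^(4i+4)`: otherwise `4 b ∈ v^(4i+4)`, so `a² ∈ v^(4i+4)`,
so `a ∈ v^(2i+2)` (valuations: `intValuation_le_pow_iff_mem`, `val (a ^ 2) = (val a) ^ 2 ≤ exp (-(4i+4))`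
gives `val a ≤ exp (-(2i+2))`), contradiction.  Suppose `SmallAt v (-2a) (a² - 4b)` with index `j`.
`(-2a)² - 4 (a² - 4b) = 16 b ∈ v^(4j+4)`, hence `b ∈ v^(4j)` (cancel `2` four times: `KTwo_cancel v h h'`
in `H73/IS/KTwo.lean`: `2 * a ∈ v^(m+1) → a ∈ v^m`).  If `j ≤ i`: `-2a ∈ v^(2i+2) ⊆ v^(2j+2)` (`2 ∈ v`,
`a ∈ v^(2i+1)`; `Ideal.pow_le_pow_right`) and `a² - 4b ∈ v^(4i+4) ⊆ v^(4j+4)`: contradiction with the last
condition for `j`.  If `j ≥ i+1`: `b ∈ v^(4j) ⊆ v^(4i+4)`: contradiction with the claim.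
-/

set_option autoImplicit false
open scoped Classical

open WeierstrassCurve IsDedekindDomain NumberField WithZero Pool.Agent.H10 H73IS

namespace H68I2

theorem I2Sm_sq {k : Type} [Field k] [NumberField k] (v : HeightOneSpectrum (𝓞 k))
    {a : 𝓞 k} {m : ℕ} (ha : a ^ 2 ∈ v.asIdeal ^ (2 * m)) : a ∈ v.asIdeal ^ m := by
  rw [← v.intValuation_le_pow_iff_mem] at ha ⊢
  rw [map_pow] at ha
  rcases eq_or_ne (v.intValuation a) 0 with h0 | h0
  · rw [h0]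
    exact zero_le
  · rw [← exp_log h0] at ha ⊢
    rw [← exp_nsmul, exp_le_exp] at ha
    rw [exp_le_exp]
    push_cast at ha
    simp only [nsmul_eq_mul] at ha
    push_cast at ha
    omega

theorem small_dual' {k : Type} [Field k] [NumberField k] (v : HeightOneSpectrum (𝓞 k))
    (h : (2 : 𝓞 k) ∈ v.asIdeal) (h' : (2 : 𝓞 k) ∉ v.asIdeal ^ 2) {a b : 𝓞 k}
    (hs : SmallAt v a b) : ¬ SmallAt v (-2 * a) (a ^ 2 - 4 * b) := by
  obtain ⟨i, h1, h2, h3, h4⟩ := hs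
  have hclaim : b ∉ v.asIdeal ^ (4 * i + 4) := by
    intro hb
    apply h4
    refine ⟨?_, hb⟩
    have h5 : a ^ 2 ∈ v.asIdeal ^ (4 * i + 4) := by
      have h6 : a ^ 2 = (a ^ 2 - 4 * b) + 4 * b := by ring
      rw [h6]
      exact Ideal.add_mem _ h3 (Ideal.mul_mem_left _ _ hb)
    have h7 : 4 * i + 4 = 2 * (2 * i + 2) := by ring
    rw [h7] at h5
    exact I2Sm_sq v h5
  rintro ⟨j, g1, g2, g3, g4⟩
  have hb : b ∈ v.asIdeal ^ (4 * j) := by
    have e : (-2 * a) ^ 2 - 4 * (a ^ 2 - 4 * b) = 2 * (2 * (2 * (2 * b))) := by ring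
    rw [e] at g3
    exact KTwo_cancel v h h' (KTwo_cancel v h h' (KTwo_cancel v h h' (KTwo_cancel v h h' g3)))
  rcases le_or_gt j i with hji | hji
  · apply g4
    constructor
    · have h5 : 2 * a ∈ v.asIdeal ^ (2 * i + 2) := by
        have h6 : 2 * i + 2 = 1 + (2 * i + 1) := by ring
        rw [h6, pow_add, pow_one]
        exact Ideal.mul_mem_mul h h1
      have h7 : -2 * a = -(2 * a) := by ring
      rw [h7]
      apply Ideal.neg_mem_iff _ |>.2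
      exact Ideal.pow_le_pow_right (by omega) h5
    · exact Ideal.pow_le_pow_right (by omega) h3
  · apply hclaim
    exact Ideal.pow_le_pow_right (by omega) hb

end H68I2
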