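import Pool.Agent.H68.I2.Ke
import Pool.Agent.H68.I2.Fc
import Pool.Agent.H68.I2.Sm
import Pool.Agent.H68.I2.Cv
import Pool.Agent.H68.I2.D2
import Pool.Agent.H73.IS.KFin
import Pool.Agent.H86.IW.Fb
import Pool.Agent.H86.IW.Fin

/-!
# MP_78d38b I2, row Nb: the bound for the new part of the two-Selmer group (about 120 lines)

`Mn`, `Hn` (`H68/IW/Df.lean`): new parts of `E(L)/2` and `Sha(E/L)[2]`.

PROOF of `new_two`. As in `H73IS.towerK` (`H73/IS/KFin.lean`): `layer_lay` with `D = 2 * b * (a ^ 2 - 4 * b)` gives `N`;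
for `K`, `L`: `g`, `R1`, `R2`, `hbad`, `hunr`, `h3` (and `cubIn_of` turns `h3` into `¬ 3 ∣ _ ∨ CubIn k K L`).
`[L : K] = p ^ i` is odd.  `H := nqK_pos hodd R1 hR ..` (as in `twoK`, `H73/IS/KTwo.lean`), `H' := famK` for
`(-2 * a, a ^ 2 - 4 * b)`, `R2`, `SL` (its `hSL`: `w ∈ SL ↔ 2 ∈ w ∧ ¬ SmallAt (below k w) (-2a) (a² - 4b)`, which is
the given `hSL` by `small_dual` and `small_dual'` (`hk.unr`, `mem_below`, `map_ofNat`)); coefficients as at the
end of `twoK`.  `IsTw (ecurve K a b) (algebraMap k K a) (algebraMap k K b)` as in `layer_stable` (`H73/IS/KTow.lean`).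
`famL_of hodd hT hV hγ hgen H H'` gives `FamL 2 hV g (finrank K L) U`, and
`H68IW.new_le` (`H68/IW/A3.lean`) with `P := finrank K L` (odd, so `¬ 2 ∣ P`) gives the claim.  The generator:
`lay_gal` (`H86/IW/Fb.lean`; `H68IW.Lay p k L` from `IsLay`: see how `H86/IK/Lay.lean` or `H68/QS/Lay.lean`
(`lay_sub`, `decompose`) get `L'`, or use `H78Z.Tw.comp` with `K := k`), `IsCyclic`: `γ` with every `y = γ ^ j`
(`IsCyclic.exists_generator`, `mem_powers_iff_mem_zpowers`), `γ ^ finrank = 1` (`pow_card_eq_one'`,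
`IsGalois.card_aut_eq_finrank`), and `g` extends `γ` to the closure (`AlgEquiv.liftNormal` or
`IsAlgClosed.lift`; model: the proof of `H68IW.new_lyr` in `H68/IW/Nc.lean`).
PROOF of `newB_two`. `H78Z.NewB {p} 2 E S` (`H78/ZC/Wx.lean`): take `N + 1`.  `E := ecurve k a b`,
`E.map (algebraMap k K) = ecurve K a b` (`ext`; coefficients; `algebraMap k k = id`).  If `finrank K L = 1` the new
parts are trivial (`H86I.ker_one`, see the case `s' = 0` in `H86/IW/Fin.lean`) and the product is `≥ 1`.  Otherwise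
`dvd_of_deep` gives `p ^ N ∣ finrank ℚ K` and `finrank K L = p ^ j`; `new_two` with the same `SL` (`hS`), and
`∏ w ∈ SL, absNorm w ≤ ∏ w ∈ SL, 2 * absNorm w`.
-/

set_option autoImplicit false
open scoped Classical

open WeierstrassCurve IsDedekindDomain NumberField WithZero Pool.Agent.H10 Pool.Agent.H11 H73IS
  H68IW

namespace H68I2

theorem Nb_cyc {p : ℕ} [Fact p.Prime] (hp2 : p ≠ 2) {k K L : Type} [Field k] [NumberField k]
    [Field K] [NumberField K] [Field L] [NumberField L] [Algebra k K] [Algebra k L] [Algebra K L]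
    [IsScalarTower k K L] (h : IsLay p k L) : IsCyclic (L ≃ₐ[K] L) := by
  have hp : p.Prime := Fact.out
  obtain ⟨-, n, ⟨φ⟩⟩ := h
  haveI : NeZero (p ^ (n + 1)) := ⟨pow_ne_zero _ hp.ne_zero⟩
  haveI : NeZero ((p ^ (n + 1) : ℕ) : k) := ⟨Nat.cast_ne_zero.2 (pow_ne_zero _ hp.ne_zero)⟩
  haveI : IsCyclotomicExtension {p ^ (n + 1)} k (CyclotomicField (p ^ (n + 1)) k) :=
    CyclotomicField.isCyclotomicExtension (p ^ (n + 1)) k
  letI : Algebra L (CyclotomicField (p ^ (n + 1)) k) := φ.toRingHom.toAlgebra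
  haveI : IsScalarTower k L (CyclotomicField (p ^ (n + 1)) k) :=
    IsScalarTower.of_algebraMap_eq fun x => (φ.commutes x).symm
  haveI : IsAbelianGalois k (CyclotomicField (p ^ (n + 1)) k) :=
    IsCyclotomicExtension.isAbelianGalois {p ^ (n + 1)} k (CyclotomicField (p ^ (n + 1)) k)
  haveI : IsAbelianGalois k L := IsAbelianGalois.of_algHom φ
  haveI : IsCyclic (ZMod (p ^ (n + 1)))ˣ := ZMod.isCyclic_units_of_prime_pow p hp hp2 (n + 1)
  have hμ := IsCyclotomicExtension.zeta_spec (p ^ (n + 1)) k (CyclotomicField (p ^ (n + 1)) k)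
  haveI : IsCyclic (CyclotomicField (p ^ (n + 1)) k ≃ₐ[k] CyclotomicField (p ^ (n + 1)) k) :=
    isCyclic_of_injective (hμ.autToPow k) (hμ.autToPow_injective k)
  haveI : IsCyclic (L ≃ₐ[k] L) := isCyclic_of_surjective
    (AlgEquiv.restrictNormalHom (F := k) (K₁ := CyclotomicField (p ^ (n + 1)) k) L)
    (AlgEquiv.restrictNormalHom_surjective (F := k) (CyclotomicField (p ^ (n + 1)) k))
  exact isCyclic_of_injective (AlgEquiv.restrictScalarsHom k)
    (AlgEquiv.restrictScalarsHom_injective k)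

theorem Nb_disc {k : Type} [Field k] [NumberField k] (K : Type) [Field K] [Algebra k K]
    (a b : 𝓞 k) : (ecurve K a b).Δ =
      16 * (algebraMap k K b) ^ 2 * ((algebraMap k K a) ^ 2 - 4 * algebraMap k K b) := by
  unfold ecurve WeierstrassCurve.Δ WeierstrassCurve.b₂ WeierstrassCurve.b₄ WeierstrassCurve.b₆
    WeierstrassCurve.b₈
  ring

theorem Nb_map {k : Type} [Field k] [NumberField k] (K : Type) [Field K] [Algebra k K]
    (a b : 𝓞 k) : (ecurve k a b).map (algebraMap k K) = ecurve K a b := by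
  unfold ecurve WeierstrassCurve.map
  simp only [map_zero, Algebra.algebraMap_self, RingHom.id_apply]

theorem Nb_pos {L : Type} [Field L] [NumberField L] (w : HeightOneSpectrum (𝓞 L)) :
    0 < Ideal.absNorm w.asIdeal := by
  rw [Nat.pos_iff_ne_zero, Ne, Ideal.absNorm_eq_zero_iff]
  exact w.ne_bot

theorem Nb_move {K L : Type} [Field K] [NumberField K] [Field L] [NumberField L] [Algebra K L]
    [IsGalois K L] {W : WeierstrassCurve K} {W' : WeierstrassCurve L} {U : ℕ}
    (H : ∀ hW : W.map (algebraMap K L) = W', Nat.card (Mn 2 hW) * Nat.card (Hn 2 hW) ≤ U)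
    {V : WeierstrassCurve K} {V' : WeierstrassCurve L} (h1 : V = W) (h2 : V' = W')
    (hV : V.map (algebraMap K L) = V') : Nat.card (Mn 2 hV) * Nat.card (Hn 2 hV) ≤ U := by
  subst h1
  subst h2
  exact H hV

theorem new_two {p : ℕ} [Fact p.Prime] (hp2 : p ≠ 2) {k : Type} [Field k] [NumberField k]
    (hk : TwoBase k) {a b : 𝓞 k} (hb0 : b ≠ 0) (hd0 : a ^ 2 - 4 * b ≠ 0) (hR : RR k a b) :
    ∃ N : ℕ, ∀ (K L : Type) [Field K] [NumberField K] [Field L] [NumberField L] [Algebra k K]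
      [Algebra k L] [Algebra K L] [IsScalarTower k K L] [IsGalois K L], IsLay p k L →
      (∃ i : ℕ, Module.finrank K L = p ^ i) → p ^ N ∣ Module.finrank ℚ K →
      ∀ (hV : (ecurve K a b).map (algebraMap K L) = ecurve L a b)
        (SL : Finset (HeightOneSpectrum (𝓞 L))),
        (∀ w, w ∈ SL ↔ (2 : 𝓞 L) ∈ w.asIdeal ∧ SmallAt (below k w) a b) →
        Nat.card (Mn 2 hV) * Nat.card (Hn 2 hV) ≤ ∏ w ∈ SL, Ideal.absNorm w.asIdeal := by
  have hp := (Fact.out : p.Prime)
  have hD : 2 * b * (a ^ 2 - 4 * b) ≠ 0 := mul_ne_zero (mul_ne_zero two_ne_zero hb0) hd0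
  obtain ⟨N, hN⟩ := H68QS.layer_lay (p := p) hp2 hk hD
  refine ⟨N, ?_⟩
  intro K L _ _ _ _ _ _ _ _ _ hL hi hK hV SL hSL
  obtain ⟨-, R1, R2, hbad, hunr, h3⟩ := hN K L hL hi hK
  have hodd : Odd (Module.finrank K L) := by
    obtain ⟨i, hi⟩ := hi
    rw [hi]
    exact (hp.odd_of_ne_two hp2).pow
  have h2 : ∀ v : HeightOneSpectrum (𝓞 K), (2 : 𝓞 K) ∈ v.asIdeal →
      UniqueOver K L v.asIdeal := by
    intro v hv
    apply hbad v
    rw [map_mul, map_mul, map_ofNat]
    exact Ideal.mul_mem_right _ _ (Ideal.mul_mem_right _ _ hv)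
  have h3' : ¬ 3 ∣ Module.finrank K L ∨ CubIn k K L := by
    rcases h3 with h3 | h3
    · exact Or.inl h3
    · exact Or.inr (cubIn_of hodd h2 h3 (res_twoBase hk))
  have H : NewTrivQ K L (algebraMap k L a) (algebraMap k L b) := by
    refine nqK_pos hodd R1 hR fun v hv => hbad v ?_
    have e : (2 : 𝓞 k) * b * (a ^ 2 - 4 * b) = (2 * (a ^ 2 - 4 * b)) * b := by ring
    rw [e, map_mul]
    exact Ideal.mul_mem_left _ _ hv
  have hSL' : ∀ w : HeightOneSpectrum (𝓞 L), w ∈ SL ↔ (2 : 𝓞 L) ∈ w.asIdeal ∧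
      ¬ SmallAt (below k w) (-2 * a) (a ^ 2 - 4 * b) := by
    intro w
    rw [hSL]
    refine and_congr_right fun hw => ?_
    have hw2 : (2 : 𝓞 k) ∈ (below k w).asIdeal := by
      rw [mem_below, map_ofNat]
      exact hw
    constructor
    · exact fun h => small_dual' (below k w) hw2 (hk.unr _ hw2) h
    · intro h
      by_contra hcon
      exact h (small_dual (below k w) hw2 (hk.unr _ hw2) hb0 hcon)
  have H' := famK (k := k) (K := K) (L := L) hodd R2 (a := -2 * a) (b := a ^ 2 - 4 * b) hSL'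
    (fun v hv => hbad v (by
      have e : (2 : 𝓞 k) * b * (a ^ 2 - 4 * b) = b * (2 * (a ^ 2 - 4 * b)) := by ring
      rw [e, map_mul]
      exact Ideal.mul_mem_left _ _ hv)) hunr h3'
  have e1 : algebraMap k L ((-2 * a : 𝓞 k) : k) = -2 * algebraMap k L a := by
    change algebraMap k L (algebraMap (𝓞 k) k (-2 * a)) = -2 * algebraMap k L (algebraMap (𝓞 k) k a)
    rw [map_mul, map_mul, map_neg, map_neg, map_ofNat, map_ofNat]
  have e2 : algebraMap k L ((a ^ 2 - 4 * b : 𝓞 k) : k) =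
      algebraMap k L a ^ 2 - 4 * algebraMap k L b := by
    change algebraMap k L (algebraMap (𝓞 k) k (a ^ 2 - 4 * b)) =
      algebraMap k L (algebraMap (𝓞 k) k a) ^ 2 - 4 * algebraMap k L (algebraMap (𝓞 k) k b)
    rw [map_sub, map_sub, map_pow, map_pow, map_mul, map_mul, map_ofNat, map_ofNat]
  rw [e1, e2] at H'
  have tw : ∀ x : k, algebraMap K L (algebraMap k K x) = algebraMap k L x := fun x =>
    (IsScalarTower.algebraMap_apply k K L x).symm
  have hne : ∀ (F : Type) [Field F] [Algebra k F], algebraMap k F b ≠ 0 ∧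
      algebraMap k F a ^ 2 - 4 * algebraMap k F b ≠ 0 := by
    intro F _ _
    have inj : Function.Injective (fun x : 𝓞 k => algebraMap k F x) :=
      (algebraMap k F).injective.comp (RingOfIntegers.coe_injective)
    have eb : algebraMap k F ((a ^ 2 - 4 * b : 𝓞 k) : k) =
        algebraMap k F a ^ 2 - 4 * algebraMap k F b := by
      change algebraMap k F (algebraMap (𝓞 k) k (a ^ 2 - 4 * b)) =
        algebraMap k F (algebraMap (𝓞 k) k a) ^ 2 - 4 * algebraMap k F (algebraMap (𝓞 k) k b)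
      rw [map_sub, map_sub, map_pow, map_pow, map_mul, map_mul, map_ofNat, map_ofNat]
    refine ⟨?_, ?_⟩
    · intro h
      exact hb0 (inj (by simpa using h))
    · intro h
      apply hd0
      apply inj
      change algebraMap k F ((a ^ 2 - 4 * b : 𝓞 k) : k) = algebraMap k F ((0 : 𝓞 k) : k)
      rw [eb, h]
      simp
  have hT : IsTw (ecurve K a b) (algebraMap k K a) (algebraMap k K b) :=
    ⟨rfl, rfl, rfl, rfl, rfl, (hne K).1, (hne K).2, two_ne_zero⟩
  have e3 : algebraMap K L (-2 * algebraMap k K a) = -2 * algebraMap k L a := by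
    rw [map_mul, map_neg, map_ofNat, tw]
  have e4 : algebraMap K L (algebraMap k K a ^ 2 - 4 * algebraMap k K b) =
      algebraMap k L a ^ 2 - 4 * algebraMap k L b := by
    rw [map_sub, map_pow, map_mul, map_ofNat, tw, tw]
  haveI : FiniteDimensional K L := Module.Finite.of_restrictScalars_finite ℚ K L
  haveI hcyc : IsCyclic (L ≃ₐ[K] L) := Nb_cyc (p := p) hp2 (k := k) hL
  obtain ⟨γ, hγ⟩ := IsCyclic.exists_generator (α := L ≃ₐ[K] L)
  have hgen : ∀ y : L ≃ₐ[K] L, ∃ j : ℕ, y = γ ^ j := by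
    intro y
    obtain ⟨j, hj⟩ := mem_powers_iff_mem_zpowers.2 (hγ y)
    exact ⟨j, hj.symm⟩
  have hγP : γ ^ Module.finrank K L = 1 := by
    rw [← IsGalois.card_aut_eq_finrank K L]
    exact pow_card_eq_one'
  haveI : Algebra.IsAlgebraic K (AlgebraicClosure L) :=
    Algebra.IsAlgebraic.trans K L (AlgebraicClosure L)
  haveI : IsAlgClosure K (AlgebraicClosure L) := ⟨inferInstance, inferInstance⟩
  haveI : Normal K (AlgebraicClosure L) := IsAlgClosure.normal K (AlgebraicClosure L)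
  obtain ⟨g, hg⟩ : ∃ g : AlgebraicClosure L ≃ₐ[K] AlgebraicClosure L, ∀ x : L,
      g (algebraMap L (AlgebraicClosure L) x) = algebraMap L (AlgebraicClosure L) (γ x) :=
    ⟨γ.liftNormal (AlgebraicClosure L), fun x => AlgEquiv.liftNormal_commutes γ _ x⟩
  have hF := famL_of hodd hT hV hg hgen (U := ∏ w ∈ SL, Ideal.absNorm w.asIdeal)
    (by rw [tw, tw]; exact H) (by rw [e3, e4]; exact H')
  have hΔ : (ecurve L a b).Δ ≠ 0 := by
    rw [Nb_disc]
    exact mul_ne_zero (mul_ne_zero (by norm_num) (pow_ne_zero 2 (hne L).1)) (hne L).2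
  exact new_le hΔ Nat.prime_two (by
    intro h
    rw [Nat.odd_iff] at hodd
    omega) hg hgen hγP hF

theorem newB_two {p : ℕ} [Fact p.Prime] (hp2 : p ≠ 2) {k : Type} [Field k] [NumberField k]
    (hk : TwoBase k) {a b : 𝓞 k} (hb0 : b ≠ 0) (hd0 : a ^ 2 - 4 * b ≠ 0) (hR : RR k a b)
    {S : Finset (HeightOneSpectrum (𝓞 k))}
    (hS : ∀ v, v ∈ S ↔ (2 : 𝓞 k) ∈ v.asIdeal ∧ SmallAt v a b) :
    H78Z.NewB {p} 2 (ecurve k a b) S := by
  have hp := (Fact.out : p.Prime)
  obtain ⟨N, hN⟩ := new_two (p := p) hp2 hk hb0 hd0 hR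
  refine ⟨N + 1, ?_⟩
  intro K L _ _ _ _ _ _ _ _ _ hT hD hV SL hSL
  rw [Finset.prod_singleton] at hD
  haveI : FiniteDimensional K L := Module.Finite.of_restrictScalars_finite ℚ K L
  by_cases h1 : Module.finrank K L = 1
  · have hcard : Fintype.card (L ≃ₐ[K] L) = 1 := by
      rw [← Nat.card_eq_fintype_card, IsGalois.card_aut_eq_finrank K L, h1]
    have e1 : Nat.card (Mn 2 hV) = 1 := H86I.ker_one _ hcard
    have e2 : Nat.card (Hn 2 hV) = 1 := H86I.ker_one _ hcard
    rw [e1, e2, one_mul]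
    exact Nat.one_le_iff_ne_zero.2 (Finset.prod_ne_zero_iff.2 fun w _ =>
      mul_ne_zero two_ne_zero (Nb_pos w).ne')
  · obtain ⟨h2, h3⟩ := dvd_of_deep hp2 hT hD h1
    have hSL' : ∀ w, w ∈ SL ↔ (2 : 𝓞 L) ∈ w.asIdeal ∧ SmallAt (below k w) a b := by
      intro w
      rw [hSL, hS, mem_below, map_ofNat]
    have h4 := fun hW => hN K L (lay_of_tw hT) h3 h2 hW SL hSL'
    refine (Nb_move h4 (Nb_map K a b) (Nb_map L a b) hV).trans ?_
    exact Finset.prod_le_prod' fun w _ => Nat.le_mul_of_pos_left _ two_pos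

end H68I2
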